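import Pool.Agent.H20.T4.Stm
import Pool.Agent.H9.TC.Basic

/-!
# Project T4 (MP_b6022c_nt), row GAP: directions of the gap windows
-/

set_option autoImplicit false

namespace Pool.Agent.H59.T4

open Finset Pool.Agent.H9.TC Pool.Agent.H20.T4

/-- `x = k y` with `|k| <= 2^kap` and `y` small. -/
theorem sm_mul {v κ B E : ℕ} {k x : ℤ} (hk : |k| ≤ 2 ^ κ) (hx : small v ((2 : ℤ) ^ (v - B)) x)
    (h : κ + (v - B) ≤ E) : small v ((2 : ℤ) ^ E) (k * x) := by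
  refine small_mono ?_ (small_mul k hx)
  calc |k| * (2 : ℤ) ^ (v - B) ≤ 2 ^ κ * 2 ^ (v - B) :=
        mul_le_mul_of_nonneg_right hk (by positivity)
    _ = 2 ^ (κ + (v - B)) := by rw [pow_add]
    _ ≤ 2 ^ E := pow_le_pow_right₀ (by norm_num) h

theorem ab_mul {x y X Y : ℤ} (hx : |x| ≤ X) (hy : |y| ≤ Y) : |x * y| ≤ X * Y := by
  rw [abs_mul]
  exact mul_le_mul hx hy (abs_nonneg _) ((abs_nonneg _).trans hx)

theorem ab_add {x y X Y : ℤ} (hx : |x| ≤ X) (hy : |y| ≤ Y) : |x + y| ≤ X + Y :=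
  (abs_add_le _ _).trans (add_le_add hx hy)

theorem ab_pow {x X : ℤ} (hx : |x| ≤ X) (n : ℕ) : |x ^ n| ≤ X ^ n := by
  rw [abs_pow]
  exact pow_le_pow_left₀ (abs_nonneg _) hx n

theorem ab_mul2 {x y : ℤ} {a b : ℕ} (hx : |x| ≤ 2 ^ a) (hy : |y| ≤ 2 ^ b) :
    |x * y| ≤ 2 ^ (a + b) := by
  rw [pow_add]
  exact ab_mul hx hy

theorem ab_le {x : ℤ} {a b : ℕ} (hx : |x| ≤ 2 ^ a) (h : a ≤ b) : |x| ≤ 2 ^ b :=
  hx.trans (pow_le_pow_right₀ (by norm_num) h)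

theorem two_pow_ge (n : ℕ) : (n : ℤ) ≤ 2 ^ n := by
  exact_mod_cast (Nat.lt_two_pow_self (n := n)).le

theorem two_pow_pos' (n : ℕ) : (0 : ℤ) < 2 ^ n := by positivity

/-- The remainder: all terms of small real size. -/
def remg (c D A n0 d e f s x m T : ℤ) : ℤ :=
  12 * c * T * (n0 + A * m) * (s + D * x) ^ 2 + 4 * c * T * (s + D * x) ^ 3
    + 6 * c * T ^ 2 * (2 * (n0 + A * m) * (s + D * x) + (s + D * x) ^ 2)
    + 4 * c * (n0 + A * m + (s + D * x)) * T ^ 3 + c * T ^ 4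
    + d * (6 * T * (n0 + A * m) * (s + D * x) + 3 * T * (s + D * x) ^ 2
      + 3 * (n0 + A * m + (s + D * x)) * T ^ 2 + T ^ 3)
    + e * (2 * (n0 + A * m + (s + D * x)) * T + T ^ 2) + f * T

theorem gap_identity (c D A n0 d e f g s x m t j : ℤ) :
    qua c d e f g (n0 + s + D * x + A * m + j * (D * t)) -
      qua c d e f g (n0 + s + D * x + A * m) =
    (j * (t * (4 * c * D * n0 ^ 3)) + (j * m) * (t * (12 * c * D * A * n0 ^ 2))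
      + (j * m ^ 2) * (t * (12 * c * D * A ^ 2 * n0)) + (j * m ^ 3) * (t * (4 * c * D * A ^ 3)))
    + ((d * j) * (t * (3 * D * n0 ^ 2)) + (d * j * m) * (t * (6 * D * A * n0))
      + (d * j * m ^ 2) * (t * (3 * D * A ^ 2)))
    + ((j * t * s) * (12 * c * D * n0 ^ 2) + (j * t * s * m) * (24 * c * D * A * n0)
      + (j * t * s * m ^ 2) * (12 * c * D * A ^ 2))
    + ((2 * (j * t) * x + (j * t) ^ 2) * (6 * c * D ^ 2 * n0 ^ 2)
      + ((2 * (j * t) * x + (j * t) ^ 2) * m) * (12 * c * D ^ 2 * A * n0)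
      + ((2 * (j * t) * x + (j * t) ^ 2) * m ^ 2) * (6 * c * D ^ 2 * A ^ 2))
    + remg c D A n0 d e f s x m (j * (D * t)) := by
  unfold qua remg
  ring

/-- Bound of the remainder. -/
theorem remg_le (c D A n0 d e f s x m T P G Cf : ℤ) (hc : 0 ≤ c) (hP : 1 ≤ P) (hG : 1 ≤ G)
    (hGP : G ≤ P) (hN : |n0 + A * m| ≤ 2 * P) (hu : |s + D * x| ≤ G) (hT : |T| ≤ G)
    (hCf : 0 ≤ Cf) (hd : |d| ≤ Cf) (he : |e| ≤ Cf) (hf : |f| ≤ Cf) :
    |remg c D A n0 d e f s x m T| ≤ 100 * (c + Cf) * (P * G ^ 4) := by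
  unfold remg
  set N := n0 + A * m
  set u := s + D * x
  have hcc : |c| ≤ c := le_of_eq (abs_of_nonneg hc)
  have num : ∀ k : ℤ, 0 ≤ k → |k| ≤ k := fun k hk => le_of_eq (abs_of_nonneg hk)
  have hn : |N + u| ≤ 3 * P := (ab_add hN hu).trans (by linarith)
  have h1 : |12 * c * T * N * u ^ 2| ≤ 12 * c * G * (2 * P) * G ^ 2 :=
    ab_mul (ab_mul (ab_mul (ab_mul (num 12 (by norm_num)) hcc) hT) hN) (ab_pow hu 2)
  have h2 : |4 * c * T * u ^ 3| ≤ 4 * c * G * G ^ 3 :=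
    ab_mul (ab_mul (ab_mul (num 4 (by norm_num)) hcc) hT) (ab_pow hu 3)
  have h3 : |6 * c * T ^ 2 * (2 * N * u + u ^ 2)| ≤ 6 * c * G ^ 2 * (2 * (2 * P) * G + G ^ 2) :=
    ab_mul (ab_mul (ab_mul (num 6 (by norm_num)) hcc) (ab_pow hT 2))
      (ab_add (ab_mul (ab_mul (num 2 (by norm_num)) hN) hu) (ab_pow hu 2))
  have h4 : |4 * c * (N + u) * T ^ 3| ≤ 4 * c * (3 * P) * G ^ 3 :=
    ab_mul (ab_mul (ab_mul (num 4 (by norm_num)) hcc) hn) (ab_pow hT 3)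
  have h5 : |c * T ^ 4| ≤ c * G ^ 4 := ab_mul hcc (ab_pow hT 4)
  have h6 : |d * (6 * T * N * u + 3 * T * u ^ 2 + 3 * (N + u) * T ^ 2 + T ^ 3)| ≤
      Cf * (6 * G * (2 * P) * G + 3 * G * G ^ 2 + 3 * (3 * P) * G ^ 2 + G ^ 3) :=
    ab_mul hd (ab_add (ab_add (ab_add
      (ab_mul (ab_mul (ab_mul (num 6 (by norm_num)) hT) hN) hu)
      (ab_mul (ab_mul (num 3 (by norm_num)) hT) (ab_pow hu 2)))
      (ab_mul (ab_mul (num 3 (by norm_num)) hn) (ab_pow hT 2))) (ab_pow hT 3))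
  have h7 : |e * (2 * (N + u) * T + T ^ 2)| ≤ Cf * (2 * (3 * P) * G + G ^ 2) :=
    ab_mul he (ab_add (ab_mul (ab_mul (num 2 (by norm_num)) hn) hT) (ab_pow hT 2))
  have h8 : |f * T| ≤ Cf * G := ab_mul hf hT
  have hsum := ab_add (ab_add (ab_add (ab_add (ab_add (ab_add (ab_add h1 h2) h3) h4) h5) h6) h7) h8
  refine hsum.trans ?_
  -- monomials
  have hP0 : (0 : ℤ) ≤ P := by linarith
  have hG0 : (0 : ℤ) ≤ G := by linarith
  have m1 : ∀ i : ℕ, i ≤ 4 → P * G ^ i ≤ P * G ^ 4 := fun i hi =>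
    mul_le_mul_of_nonneg_left (pow_le_pow_right₀ hG hi) hP0
  have m2 : ∀ i : ℕ, i ≤ 4 → G ^ i ≤ P * G ^ 4 := fun i hi => by
    refine (pow_le_pow_right₀ hG hi).trans ?_
    nlinarith [pow_nonneg hG0 4]
  have k1 := m1 3 (by norm_num)
  have k2 := m1 2 (by norm_num)
  have k3 := m1 1 (by norm_num)
  have k4 := m2 4 (by norm_num)
  have k5 := m2 3 (by norm_num)
  have k6 := m2 2 (by norm_num)
  have k7 := m2 1 (by norm_num)
  rw [pow_one] at k3 k7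
  have hQ : 0 ≤ P * G ^ 4 := by positivity
  have c1 := mul_le_mul_of_nonneg_left k1 hc
  have c4 := mul_le_mul_of_nonneg_left k4 hc
  have d2 := mul_le_mul_of_nonneg_left k2 hCf
  have d3 := mul_le_mul_of_nonneg_left k3 hCf
  have d5 := mul_le_mul_of_nonneg_left k5 hCf
  have d6 := mul_le_mul_of_nonneg_left k6 hCf
  have d7 := mul_le_mul_of_nonneg_left k7 hCf
  have q1 : 0 ≤ c * (P * G ^ 4) := mul_nonneg hc hQ
  have q2 : 0 ≤ Cf * (P * G ^ 4) := mul_nonneg hCf hQ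
  ring_nf at c1 c4 d2 d3 d5 d6 d7 q1 q2 ⊢
  linarith


/-- The core estimate, for one point. -/
theorem gap_point (c Cf g Z w a v lo ED D t m s x F E K : ℕ) (ν : ℕ) (n0 : ℕ)
    (d e f g' j : ℤ) (haw : a + w = ν)
    (hED : 2000 * w ≤ ED) (hν : 10 * ED ≤ ν) (hv : v = lo + w) (hlo : 2 * a ≤ lo)
    (hK : K = g + Z + Cf + 10) (hwK : 100 * (K + c) ≤ w) (hF : F = ED + 19 * w)
    (hE : E + 4 = lo - g) (hD : D ≤ 2 ^ ED) (hn0 : n0 < 2 ^ ν)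
    (hd : |d| ≤ Cf) (he : |e| ≤ Cf) (hf : |f| ≤ Cf)
    (hs : s < 2 ^ (400 * w + 1)) (hx : x < 2 ^ (18 * w + 1)) (hm : m ≤ 2 ^ w)
    (hj : |j| ≤ 2 ^ Z) (ht : t ≤ 2 ^ (17 * w))
    (q1 : small v ((2 : ℤ) ^ (v - 430 * w)) (12 * c * D * (n0 : ℤ) ^ 2))
    (q2 : small v ((2 : ℤ) ^ (v - 430 * w)) (24 * c * D * 2 ^ a * (n0 : ℤ)))
    (q3 : small v ((2 : ℤ) ^ (v - 430 * w)) (12 * c * D * (2 ^ a) ^ 2))
    (q4 : small v ((2 : ℤ) ^ (v - 430 * w)) (6 * c * (D : ℤ) ^ 2 * (n0 : ℤ) ^ 2))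
    (q5 : small v ((2 : ℤ) ^ (v - 430 * w)) (12 * c * (D : ℤ) ^ 2 * 2 ^ a * (n0 : ℤ)))
    (q6 : small v ((2 : ℤ) ^ (v - 430 * w)) (6 * c * (D : ℤ) ^ 2 * (2 ^ a) ^ 2))
    (h1 : small v ((2 : ℤ) ^ (v - (w + K))) (t * (4 * c * D * (n0 : ℤ) ^ 3)))
    (h2 : small v ((2 : ℤ) ^ (v - (2 * w + K))) (t * (12 * c * D * 2 ^ a * (n0 : ℤ) ^ 2)))
    (h3 : small v ((2 : ℤ) ^ (v - (3 * w + K))) (t * (12 * c * D * (2 ^ a) ^ 2 * (n0 : ℤ))))
    (h4 : small v ((2 : ℤ) ^ (v - (4 * w + K))) (t * (4 * c * D * (2 ^ a) ^ 3)))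
    (h5 : small v ((2 : ℤ) ^ (v - (w + K))) (t * (3 * D * (n0 : ℤ) ^ 2)))
    (h6 : small v ((2 : ℤ) ^ (v - (2 * w + K))) (t * (6 * D * 2 ^ a * (n0 : ℤ))))
    (h7 : small v ((2 : ℤ) ^ (v - (3 * w + K))) (t * (3 * D * (2 ^ a) ^ 2))) :
    small v ((2 : ℤ) ^ (lo - g))
      (qua c d e f g' (n0 + s + D * x + 2 ^ a * m + j * (D * t))
        - qua c d e f g' (n0 + s + D * x + 2 ^ a * m)) := by
  rw [gap_identity]
  -- sizes of the factors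
  have zs : |(s : ℤ)| ≤ 2 ^ (400 * w + 1) := by
    rw [abs_of_nonneg (Int.natCast_nonneg s)]
    exact_mod_cast hs.le
  have zx : |(x : ℤ)| ≤ 2 ^ (18 * w + 1) := by
    rw [abs_of_nonneg (Int.natCast_nonneg x)]
    exact_mod_cast hx.le
  have zm : |(m : ℤ)| ≤ 2 ^ w := by
    rw [abs_of_nonneg (Int.natCast_nonneg m)]
    exact_mod_cast hm
  have zt : |(t : ℤ)| ≤ 2 ^ (17 * w) := by
    rw [abs_of_nonneg (Int.natCast_nonneg t)]
    exact_mod_cast ht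
  have zD : |(D : ℤ)| ≤ 2 ^ ED := by
    rw [abs_of_nonneg (Int.natCast_nonneg D)]
    exact_mod_cast hD
  have zm2 : |(m : ℤ) ^ 2| ≤ 2 ^ (w + w) := by
    rw [pow_two]
    exact ab_mul2 zm zm
  have zm3 : |(m : ℤ) ^ 3| ≤ 2 ^ (w + w + w) := by
    rw [pow_succ]
    exact ab_mul2 zm2 zm
  have zd : |d| ≤ 2 ^ Cf := hd.trans (two_pow_ge Cf)
  have zjt : |j * t| ≤ 2 ^ (Z + 17 * w) := ab_mul2 hj zt
  have zjt2 : |(j * t) ^ 2| ≤ 2 ^ (Z + 17 * w + (Z + 17 * w)) := by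
    rw [pow_two]
    exact ab_mul2 zjt zjt
  have zjts : |j * t * s| ≤ 2 ^ (Z + 17 * w + (400 * w + 1)) := ab_mul2 zjt zs
  have z2 : |(2 : ℤ)| ≤ 2 ^ 1 := by norm_num
  have zq : |2 * (j * t) * x + (j * t) ^ 2| ≤ 2 ^ (40 * w) := by
    have e1 : |2 * (j * t) * x| ≤ 2 ^ (1 + (Z + 17 * w) + (18 * w + 1)) :=
      ab_mul2 (ab_mul2 z2 zjt) zx
    have e2 := ab_add (ab_le e1 (show _ ≤ 39 * w by omega))
      (ab_le zjt2 (show _ ≤ 39 * w by omega))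
    refine e2.trans ?_
    have e3 : (2 : ℤ) ^ (39 * w) + 2 ^ (39 * w) = 2 ^ (39 * w + 1) := by
      rw [pow_succ]
      ring
    rw [e3]
    exact pow_le_pow_right₀ (by norm_num) (by omega)
  -- the terms
  have A1 : small v ((2 : ℤ) ^ E) (j * (t * (4 * c * D * (n0 : ℤ) ^ 3))) :=
    sm_mul hj h1 (by omega)
  have A2 : small v ((2 : ℤ) ^ E) ((j * m) * (t * (12 * c * D * 2 ^ a * (n0 : ℤ) ^ 2))) :=
    sm_mul (ab_mul2 hj zm) h2 (by omega)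
  have A3 : small v ((2 : ℤ) ^ E) ((j * m ^ 2) * (t * (12 * c * D * (2 ^ a) ^ 2 * (n0 : ℤ)))) :=
    sm_mul (ab_mul2 hj zm2) h3 (by omega)
  have A4 : small v ((2 : ℤ) ^ E) ((j * m ^ 3) * (t * (4 * c * D * (2 ^ a) ^ 3))) :=
    sm_mul (ab_mul2 hj zm3) h4 (by omega)
  have A5 : small v ((2 : ℤ) ^ E) ((d * j) * (t * (3 * D * (n0 : ℤ) ^ 2))) :=
    sm_mul (ab_mul2 zd hj) h5 (by omega)
  have A6 : small v ((2 : ℤ) ^ E) ((d * j * m) * (t * (6 * D * 2 ^ a * (n0 : ℤ)))) :=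
    sm_mul (ab_mul2 (ab_mul2 zd hj) zm) h6 (by omega)
  have A7 : small v ((2 : ℤ) ^ E) ((d * j * m ^ 2) * (t * (3 * D * (2 ^ a) ^ 2))) :=
    sm_mul (ab_mul2 (ab_mul2 zd hj) zm2) h7 (by omega)
  have A8 : small v ((2 : ℤ) ^ E) ((j * t * s) * (12 * c * D * (n0 : ℤ) ^ 2)) :=
    sm_mul zjts q1 (by omega)
  have A9 : small v ((2 : ℤ) ^ E) ((j * t * s * m) * (24 * c * D * 2 ^ a * (n0 : ℤ))) :=
    sm_mul (ab_mul2 zjts zm) q2 (by omega)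
  have A10 : small v ((2 : ℤ) ^ E) ((j * t * s * m ^ 2) * (12 * c * D * (2 ^ a) ^ 2)) :=
    sm_mul (ab_mul2 zjts zm2) q3 (by omega)
  have A11 : small v ((2 : ℤ) ^ E)
      ((2 * (j * t) * x + (j * t) ^ 2) * (6 * c * (D : ℤ) ^ 2 * (n0 : ℤ) ^ 2)) :=
    sm_mul zq q4 (by omega)
  have A12 : small v ((2 : ℤ) ^ E)
      (((2 * (j * t) * x + (j * t) ^ 2) * m) * (12 * c * (D : ℤ) ^ 2 * 2 ^ a * (n0 : ℤ))) :=
    sm_mul (ab_mul2 zq zm) q5 (by omega)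
  have A13 : small v ((2 : ℤ) ^ E)
      (((2 * (j * t) * x + (j * t) ^ 2) * m ^ 2) * (6 * c * (D : ℤ) ^ 2 * (2 ^ a) ^ 2)) :=
    sm_mul (ab_mul2 zq zm2) q6 (by omega)
  -- the remainder
  have A14 : small v ((2 : ℤ) ^ E) (remg c D (2 ^ a) n0 d e f s x m (j * (D * t))) := by
    refine small_of_abs_le ?_
    have hN : |(n0 : ℤ) + 2 ^ a * m| ≤ 2 * 2 ^ ν := by
      have e1 : |(n0 : ℤ)| ≤ 2 ^ ν := by
        rw [abs_of_nonneg (Int.natCast_nonneg n0)]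
        exact_mod_cast hn0.le
      have e2 : |(2 : ℤ) ^ a * m| ≤ 2 ^ (a + w) :=
        ab_mul2 (le_of_eq (abs_of_nonneg (by positivity))) zm
      rw [haw] at e2
      exact (ab_add e1 e2).trans (le_of_eq (by ring))
    have hu : |(s : ℤ) + D * x| ≤ 2 ^ F := by
      have e2 := ab_add (ab_le zs (show _ ≤ ED + 18 * w + 1 by omega))
        (ab_le (ab_mul2 zD zx) (show _ ≤ ED + 18 * w + 1 by omega))
      refine e2.trans ?_
      have e3 : (2 : ℤ) ^ (ED + 18 * w + 1) + 2 ^ (ED + 18 * w + 1) =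
          2 ^ (ED + 18 * w + 1 + 1) := by
        rw [pow_succ _ (ED + 18 * w + 1)]
        ring
      rw [e3]
      exact pow_le_pow_right₀ (by norm_num) (by omega)
    have hT : |j * (D * t)| ≤ 2 ^ F :=
      ab_le (ab_mul2 hj (ab_mul2 zD zt)) (by omega)
    have hG : (1 : ℤ) ≤ 2 ^ F := one_le_pow₀ (by norm_num)
    have hP : (1 : ℤ) ≤ 2 ^ ν := one_le_pow₀ (by norm_num)
    have hGP : (2 : ℤ) ^ F ≤ 2 ^ ν := pow_le_pow_right₀ (by norm_num) (by omega)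
    have hR := remg_le c D (2 ^ a) n0 d e f s x m (j * (D * t)) (2 ^ ν) (2 ^ F) Cf
      (Int.natCast_nonneg c) hP hG hGP hN hu hT (Int.natCast_nonneg Cf) hd he hf
    refine hR.trans ?_
    have hc1 : (100 : ℤ) * (c + Cf) ≤ 2 ^ (7 + (c + Cf)) := by
      have e1 := two_pow_ge (c + Cf)
      push_cast at e1
      rw [pow_add]
      have e2 : (0 : ℤ) ≤ 2 ^ (c + Cf) := by positivity
      nlinarith
    calc (100 : ℤ) * (c + Cf) * (2 ^ ν * (2 ^ F) ^ 4)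
        ≤ 2 ^ (7 + (c + Cf)) * (2 ^ ν * (2 ^ F) ^ 4) :=
          mul_le_mul_of_nonneg_right hc1 (by positivity)
      _ = 2 ^ (7 + (c + Cf) + (ν + F * 4)) := by
          rw [pow_add 2 (7 + (c + Cf)), pow_add 2 ν, pow_mul]
      _ ≤ 2 ^ E := pow_le_pow_right₀ (by norm_num) (by omega)
  have B1 := small_add (small_add (small_add A1 A2) A3) A4
  have B2 := small_add (small_add A5 A6) A7
  have B3 := small_add (small_add A8 A9) A10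
  have B4 := small_add (small_add A11 A12) A13
  have B5 := small_add (small_add (small_add (small_add B1 B2) B3) B4) A14
  refine small_mono ?_ B5
  have hpos : (0 : ℤ) < 2 ^ E := by positivity
  rw [← hE, pow_add]
  linarith

/-- (GAP) -/
theorem gap (hDIR : DIRStmt) : GAPStmt := by
  intro c Cf g Z hc
  refine ⟨100 * (g + Z + Cf + 10 + c), ?_⟩
  intro w hw ν a ED D haw hED hν hD1 hD n0 hn0 hDc l hl1 hl2
  obtain ⟨l', rfl⟩ : ∃ l', l = l' + 1 := ⟨l - 1, by omega⟩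
  have hQ := hDc (l' + 1) hl1 hl2
  have hlo : 2 * a + (l' + 1 - 1) * w = 2 * a + l' * w := by simp
  have hv : 2 * a + (l' + 1) * w = 2 * a + l' * w + w := by ring
  rw [hlo]
  rw [hv] at hQ ⊢
  set lo := 2 * a + l' * w with hlodef
  have hlo2 : 2 * a ≤ lo := Nat.le_add_right _ _
  set K := g + Z + Cf + 10 with hK
  set v := lo + w with hvdef
  have e2 : (2 : ℤ) ^ (2 * a) = (2 ^ a) ^ 2 := by rw [← pow_mul, mul_comm]
  rw [e2] at hQ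
  obtain ⟨q1, q2, q3, q4, q5, q6⟩ := hQ
  obtain ⟨t, ht1, ht2, hx⟩ := hDIR 7 ![(4 * c * D * (n0 : ℤ) ^ 3), (12 * c * D * 2 ^ a * (n0 : ℤ) ^ 2),
    (12 * c * D * (2 ^ a) ^ 2 * (n0 : ℤ)), (4 * c * D * (2 ^ a) ^ 3), (3 * D * (n0 : ℤ) ^ 2),
    (6 * D * 2 ^ a * (n0 : ℤ)), (3 * D * (2 ^ a) ^ 2)] v
    ![w + K, 2 * w + K, 3 * w + K, 4 * w + K, w + K, 2 * w + K, 3 * w + K] (by
      intro i
      fin_cases i <;> simp <;> omega)
  have h1 : small v ((2 : ℤ) ^ (v - (w + K))) (t * (4 * c * D * (n0 : ℤ) ^ 3)) := hx 0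
  have h2 : small v ((2 : ℤ) ^ (v - (2 * w + K))) (t * (12 * c * D * 2 ^ a * (n0 : ℤ) ^ 2)) := hx 1
  have h3 : small v ((2 : ℤ) ^ (v - (3 * w + K))) (t * (12 * c * D * (2 ^ a) ^ 2 * (n0 : ℤ))) :=
    hx 2
  have h4 : small v ((2 : ℤ) ^ (v - (4 * w + K))) (t * (4 * c * D * (2 ^ a) ^ 3)) := hx 3
  have h5 : small v ((2 : ℤ) ^ (v - (w + K))) (t * (3 * D * (n0 : ℤ) ^ 2)) := hx 4
  have h6 : small v ((2 : ℤ) ^ (v - (2 * w + K))) (t * (6 * D * 2 ^ a * (n0 : ℤ))) := hx 5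
  have h7 : small v ((2 : ℤ) ^ (v - (3 * w + K))) (t * (3 * D * (2 ^ a) ^ 2)) := hx 6
  have ht3 : t ≤ 2 ^ (17 * w) := by
    refine ht2.trans (Nat.pow_le_pow_right (by norm_num) ?_)
    simp only [Fin.sum_univ_succ, Matrix.cons_val_zero, Matrix.cons_val_succ, Fin.sum_univ_zero]
    simp
    omega
  refine ⟨t, ht1, ht3, ?_⟩
  intro d e f g' hd he hf hg' s hs x hx m hm j hj
  exact gap_point c Cf g Z w a v lo ED D t m s x (ED + 19 * w) (lo - g - 4) K ν n0 d e f g' j haw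
    hED hν rfl hlo2 hK hw rfl (by omega) hD hn0 hd he hf hs hx hm hj ht3 q1 q2 q3 q4 q5 q6
    h1 h2 h3 h4 h5 h6 h7

end Pool.Agent.H59.T4
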