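import Pool.Agent.H59.T4.Ba
import Pool.Agent.H9.TC.Basic

/-!
# Project T4 (MP_b6022c_nt), rows AVG and LINM
-/

set_option autoImplicit false

namespace Pool.Agent.H59.T4

open Finset Pool.Agent.H9.TC Pool.Agent.H20.T4

theorem cnt_shift_le (P : ℕ → Prop) (K z : ℕ) : cnt K (fun y => P (y + z)) ≤ cnt K P + z := by
  classical
  unfold cnt
  have h1 : ((range K).filter (fun y => P (y + z))).card =
      (((range K).filter (fun y => P (y + z))).image (fun y => y + z)).card :=
    (Finset.card_image_of_injective _ (fun a b h => by simpa using h)).symm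
  rw [h1]
  have h2 : ((range K).filter (fun y => P (y + z))).image (fun y => y + z) ⊆
      (range K).filter P ∪ Ico K (K + z) := by
    intro w hw
    simp only [Finset.mem_image, Finset.mem_filter, Finset.mem_range] at hw
    obtain ⟨y, ⟨hy, hP⟩, rfl⟩ := hw
    simp only [Finset.mem_union, Finset.mem_filter, Finset.mem_range, Finset.mem_Ico]
    by_cases hc : y + z < K
    · exact Or.inl ⟨hc, hP⟩
    · exact Or.inr ⟨by omega, by omega⟩
  refine (Finset.card_le_card h2).trans ((Finset.card_union_le _ _).trans ?_)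
  rw [Nat.card_Ico]
  omega

theorem cnt_eq_sum (K : ℕ) (P : ℕ → Prop) [DecidablePred P] :
    cnt K P = ∑ y ∈ range K, if P y then 1 else 0 := by
  unfold cnt
  rw [Finset.card_filter]
  refine Finset.sum_congr rfl fun y _ => ?_
  by_cases h : P y <;> simp [h]

theorem nat_sum_blocks (K M : ℕ) (F : ℕ → ℕ) :
    ∑ n ∈ range (K * M), F n = ∑ m ∈ range M, ∑ y ∈ range K, F (K * m + y) := by
  induction M with
  | zero => simp
  | succ M ih =>
    rw [Nat.mul_succ, Finset.sum_range_add, ih, Finset.sum_range_succ]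

/-- (AVG) -/
theorem avg : AVGStmt := by
  intro a β A B R Dd Q hβ hR
  classical
  have hpow : (2 : ℕ) ^ a = 2 ^ β * 2 ^ (a - β) := by
    rw [← pow_add]
    congr 1
    omega
  have hnat : ∑ n0 ∈ range (2 ^ a), cnt2 A B
      (fun s x => Q (n0 / 2 ^ β) (n0 + s + Dd (n0 / 2 ^ β) * x)) ≤
      A * B * ∑ b ∈ range (2 ^ (a - β)), (cnt (2 ^ β) (fun y => Q b (b * 2 ^ β + y)) + R) := by
    rw [hpow, nat_sum_blocks, Finset.mul_sum]
    refine Finset.sum_le_sum fun b _ => ?_
    have h1 : ∀ y ∈ range (2 ^ β), cnt2 A B (fun s x => Q ((2 ^ β * b + y) / 2 ^ β)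
        (2 ^ β * b + y + s + Dd ((2 ^ β * b + y) / 2 ^ β) * x)) =
        ∑ x ∈ range B, ∑ s ∈ range A,
          if Q b (b * 2 ^ β + (y + (s + Dd b * x))) then 1 else 0 := by
      intro y hy
      have hb : (2 ^ β * b + y) / 2 ^ β = b := by
        rw [Nat.mul_add_div (by positivity), Nat.div_eq_of_lt (Finset.mem_range.mp hy), add_zero]
      unfold cnt2
      rw [hb]
      refine Finset.sum_congr rfl fun x _ => ?_
      rw [cnt_eq_sum]
      refine Finset.sum_congr rfl fun s _ => ?_
      have e : 2 ^ β * b + y + s + Dd b * x = b * 2 ^ β + (y + (s + Dd b * x)) := by ring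
      simp only [e]
    rw [Finset.sum_congr rfl h1, Finset.sum_comm]
    have h2 : ∀ x ∈ range B, ∑ y ∈ range (2 ^ β), ∑ s ∈ range A,
        (if Q b (b * 2 ^ β + (y + (s + Dd b * x))) then 1 else 0) ≤
        A * (cnt (2 ^ β) (fun y => Q b (b * 2 ^ β + y)) + R) := by
      intro x hx
      rw [Finset.sum_comm]
      have h3 : ∀ s ∈ range A, ∑ y ∈ range (2 ^ β),
          (if Q b (b * 2 ^ β + (y + (s + Dd b * x))) then 1 else 0) ≤
          cnt (2 ^ β) (fun y => Q b (b * 2 ^ β + y)) + R := by
        intro s hs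
        have h4 := cnt_shift_le (fun y => Q b (b * 2 ^ β + y)) (2 ^ β) (s + Dd b * x)
        rw [cnt_eq_sum (2 ^ β) (fun y => Q b (b * 2 ^ β + (y + (s + Dd b * x))))] at h4
        refine h4.trans ?_
        have h5 : s + Dd b * x ≤ R := by
          refine le_trans ?_ (hR b)
          have h6 := (Finset.mem_range.mp hs).le
          have h7 : Dd b * x ≤ B * Dd b := by
            rw [mul_comm]
            exact Nat.mul_le_mul_right _ (Finset.mem_range.mp hx).le
          exact Nat.add_le_add h6 h7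
        omega
      refine (Finset.sum_le_sum h3).trans ?_
      rw [Finset.sum_const, Finset.card_range, smul_eq_mul]
    refine (Finset.sum_le_sum h2).trans ?_
    rw [Finset.sum_const, Finset.card_range, smul_eq_mul]
    exact le_of_eq (by ring)
  exact_mod_cast hnat

/-- (LINM) -/
theorem linm : LINMStmt := by
  intro c d e f g x a m
  set y := qua c d e f g (x + 2 ^ a * m) with hy
  set r : ℤ := m ^ 2 * (c * (6 * x ^ 2 + 4 * x * (2 ^ a * m) + (2 ^ a * m) ^ 2) +
    d * (3 * x + 2 ^ a * m) + e) with hr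
  have h1 : y = qua c d e f g x + 2 ^ a * (m * dqua c d e f x + 2 ^ a * r) := by
    rw [hy, hr]
    unfold qua dqua
    ring
  have h2 : TW 0 (2 * a) y = TW 0 a y * TW a (2 * a) y :=
    (TW_split (Nat.zero_le a) (by omega) y).symm
  have h3 : TW 0 a y = TW 0 a (qua c d e f g x) := by
    rw [h1]
    exact TW_add_mul 0 a _ _
  have h4 : TW a (2 * a) y = TW 0 a (y / 2 ^ a) := by
    have := TW_shift a a y
    rw [two_mul]
    exact this
  have h5 : y / 2 ^ a = qua c d e f g x / 2 ^ a + m * dqua c d e f x + 2 ^ a * r := by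
    rw [h1, Int.add_mul_ediv_left _ _ (by positivity)]
    ring
  rw [h2, h3, h4, h5]
  congr 1
  exact TW_add_mul 0 a _ _

end Pool.Agent.H59.T4
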