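import Pool.Agent.H20.T4.Stm
import Pool.Agent.H9.TC.V

/-!
# Project T4 (MP_b6022c_nt), row JG: generic points of the box
-/

set_option autoImplicit false

namespace Pool.Agent.H59.T4

open Finset hiding box
open Pool.Agent.H9.TC Pool.Agent.H20.T4

/-- one pair -/
theorem jg_one (kk q1 c J : ℕ) (d : Fin q1 → ℤ) (H : Fin kk → ℕ) (hc : 1 ≤ c)
    (hd : Function.Injective d) (hH : ∀ l, 1 ≤ H l) (i i' : Fin q1) (η η' : Fin kk → Bool)
    (hne : (i, η) ≠ (i', η')) :
    ((box kk J).filter (fun j => del c (d i) (d i') (psi 0 (fun l => (H l : ℤ)) η j)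
        (psi 0 (fun l => (H l : ℤ)) η' j) = 0)).card * J ≤ (box kk J).card := by
  classical
  by_cases hη : η = η'
  · subst hη
    have hi : i ≠ i' := fun h => hne (by rw [h])
    have h0 : (box kk J).filter (fun j => del c (d i) (d i') (psi 0 (fun l => (H l : ℤ)) η j)
        (psi 0 (fun l => (H l : ℤ)) η j) = 0) = ∅ := by
      refine Finset.filter_eq_empty_iff.mpr ?_
      intro j _ h
      unfold del at h
      apply hi
      apply hd
      linarith
    rw [h0]
    simp
  · obtain ⟨l, hl⟩ : ∃ l, η l ≠ η' l := by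
      by_contra hcon
      push Not at hcon
      exact hη (funext hcon)
    set F := (box kk J).filter (fun j => del c (d i) (d i') (psi 0 (fun l => (H l : ℤ)) η j)
        (psi 0 (fun l => (H l : ℤ)) η' j) = 0) with hF
    have hcard : (F ×ˢ range J).card = F.card * J := by
      rw [Finset.card_product, Finset.card_range]
    rw [← hcard]
    refine Finset.card_le_card_of_injOn
      (fun p => (p.1.1, Function.update p.1.2 (l, η l) p.2)) ?_ ?_
    · intro p hp
      simp only [Finset.coe_product, Set.mem_prod, Finset.mem_coe, hF, Finset.mem_filter,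
        Finset.mem_range] at hp
      obtain ⟨⟨hb, _⟩, hv⟩ := hp
      simp only [box, Finset.mem_product, Fintype.mem_piFinset, Finset.mem_range] at hb
      simp only [box, Finset.mem_coe, Finset.mem_product, Fintype.mem_piFinset, Finset.mem_range]
      refine ⟨hb.1, fun x => ?_⟩
      by_cases hx : x = (l, η l)
      · subst hx
        simpa using hv
      · rw [Function.update_of_ne hx]
        exact hb.2 x
    · rintro ⟨⟨j0, f⟩, v⟩ hp ⟨⟨j0', f'⟩, v'⟩ hp' heq
      simp only [Finset.coe_product, Set.mem_prod, Finset.mem_coe, hF, Finset.mem_filter] at hp hp'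
      simp only [Prod.mk.injEq] at heq
      obtain ⟨h1, h2⟩ := heq
      have hv : v = v' := by
        have := congrFun h2 (l, η l)
        simpa using this
      have hoff : ∀ x, x ≠ (l, η l) → f x = f' x := by
        intro x hx
        have := congrFun h2 x
        rwa [Function.update_of_ne hx, Function.update_of_ne hx] at this
      have e1 := hp.1.2
      have e2 := hp'.1.2
      unfold del psi at e1 e2
      simp only [mul_zero, zero_add] at e1 e2
      -- the sum with `η'` does not see the coordinate
      have s1 : ∑ l', (f (l', η' l') : ℤ) * (H l' : ℤ) = ∑ l', (f' (l', η' l') : ℤ) * (H l' : ℤ) := by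
        refine Finset.sum_congr rfl fun l' _ => ?_
        have : f (l', η' l') = f' (l', η' l') := by
          apply hoff
          intro h
          rw [Prod.mk.injEq] at h
          obtain ⟨ha, hb⟩ := h
          subst ha
          exact hl hb.symm
        rw [this]
      have s2 : ∀ g : Fin kk × Bool → ℕ, ∑ l', (g (l', η l') : ℤ) * (H l' : ℤ) =
          (g (l, η l) : ℤ) * (H l : ℤ) +
            ∑ l' ∈ Finset.univ.erase l, (g (l', η l') : ℤ) * (H l' : ℤ) := by
        intro g
        rw [← Finset.add_sum_erase Finset.univ _ (Finset.mem_univ l)]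
      have s3 : ∑ l' ∈ Finset.univ.erase l, (f (l', η l') : ℤ) * (H l' : ℤ) =
          ∑ l' ∈ Finset.univ.erase l, (f' (l', η l') : ℤ) * (H l' : ℤ) := by
        refine Finset.sum_congr rfl fun l' hl' => ?_
        have : f (l', η l') = f' (l', η l') := by
          apply hoff
          intro h
          rw [Prod.mk.injEq] at h
          exact (Finset.ne_of_mem_erase hl') h.1
        rw [this]
      rw [s2 f, s1, s3] at e1
      rw [s2 f'] at e2
      have hcz : (0 : ℤ) < c := by exact_mod_cast hc
      have hHz : (0 : ℤ) < H l := by exact_mod_cast hH l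
      have e3 : (12 * (c : ℤ) * H l) * ((f (l, η l) : ℤ) - f' (l, η l)) = 0 := by linarith
      have e4 : (f (l, η l) : ℤ) - f' (l, η l) = 0 :=
        (mul_eq_zero.1 e3).resolve_left (by positivity)
      have e5 : f (l, η l) = f' (l, η l) := by omega
      have hf : f = f' := by
        funext x
        by_cases hx : x = (l, η l)
        · rw [hx, e5]
        · exact hoff x hx
      rw [h1, hf, hv]

/-- (JG) -/
theorem jg : JGStmt := by
  intro kk q1 c J d H hc hJ hd hH
  classical
  set G := fun p : (Fin q1 × (Fin kk → Bool)) × (Fin q1 × (Fin kk → Bool)) =>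
    if p.1 ≠ p.2 then (box kk J).filter (fun j => del c (d p.1.1) (d p.2.1)
      (psi 0 (fun l => (H l : ℤ)) p.1.2 j) (psi 0 (fun l => (H l : ℤ)) p.2.2 j) = 0) else ∅ with hG
  have h1 : ((box kk J).filter (fun j => ∃ i i' : Fin q1, ∃ η η' : Fin kk → Bool,
      (i, η) ≠ (i', η') ∧ del c (d i) (d i') (psi 0 (fun l => (H l : ℤ)) η j)
        (psi 0 (fun l => (H l : ℤ)) η' j) = 0)).card ≤ ∑ p, (G p).card := by
    refine le_trans (Finset.card_le_card ?_) (Finset.card_biUnion_le (s := Finset.univ) (t := G))
    intro j hj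
    rw [Finset.mem_filter] at hj
    obtain ⟨hb, i, i', η, η', hne, h0⟩ := hj
    rw [Finset.mem_biUnion]
    refine ⟨((i, η), (i', η')), Finset.mem_univ _, ?_⟩
    simp only [hG]
    rw [if_pos hne, Finset.mem_filter]
    exact ⟨hb, h0⟩
  have h2 : ∀ p, (G p).card * J ≤ (box kk J).card := by
    intro p
    simp only [hG]
    by_cases hp : p.1 ≠ p.2
    · rw [if_pos hp]
      exact jg_one kk q1 c J d H hc hd hH p.1.1 p.2.1 p.1.2 p.2.2 hp
    · rw [if_neg hp]
      simp
  have h3 : ((box kk J).filter (fun j => ∃ i i' : Fin q1, ∃ η η' : Fin kk → Bool,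
      (i, η) ≠ (i', η') ∧ del c (d i) (d i') (psi 0 (fun l => (H l : ℤ)) η j)
        (psi 0 (fun l => (H l : ℤ)) η' j) = 0)).card * J ≤
      (q1 * 2 ^ kk) ^ 2 * (box kk J).card := by
    refine (Nat.mul_le_mul_right J h1).trans ?_
    rw [Finset.sum_mul]
    refine (Finset.sum_le_sum fun p _ => h2 p).trans ?_
    rw [Finset.sum_const, smul_eq_mul]
    refine le_of_eq ?_
    congr 1
    simp [Finset.card_univ, Fintype.card_prod, Fintype.card_pi, pow_two]
  exact_mod_cast h3

end Pool.Agent.H59.T4
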