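import Pool.Agent.H59.T4.Cell
import Pool.Agent.H20.T4.Stm

/-!
# Project T4 (MP_b6022c_nt), row VC: iterated van der Corput on the cell
-/

set_option autoImplicit false

namespace Pool.Agent.H59.T4

open Finset hiding box
open Pool.Agent.H9.TC Pool.Agent.H20.T4

theorem shift_add {ι : Type*} {Om : Finset ι} {nn : ι → ℤ} {t1 t2 : ℤ} {c1 c2 : ℝ}
    (h1 : Shift Om nn t1 c1) (h2 : Shift Om nn t2 c2) : Shift Om nn (t1 + t2) (c1 + c2) := by
  intro g hg a
  have e1 := h2 g hg a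
  have e2 := h1 (fun x => g (x + a * t2)) (fun x => hg _) a
  have e3 : ∑ w ∈ Om, g (nn w + a * (t1 + t2)) = ∑ w ∈ Om, g (nn w + a * t1 + a * t2) := by
    refine Finset.sum_congr rfl fun w _ => ?_
    congr 1
    ring
  rw [e3]
  rw [abs_le] at *
  constructor <;> nlinarith [e1.1, e1.2, e2.1, e2.2]

theorem shift_zero {ι : Type*} (Om : Finset ι) (nn : ι → ℤ) : Shift Om nn 0 0 := by
  intro g _ a
  simp

/-- Decoding of `z = s + P x + P Q m`. -/
noncomputable def decF (F : ℕ → ℕ → ℕ → ℝ) (P Q : ℕ) (z : ℤ) : ℝ :=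
  F (z % P).toNat ((z / P) % Q).toNat (z / P / Q).toNat

theorem decF_eq (F : ℕ → ℕ → ℕ → ℝ) (P Q s x m : ℕ) (hs : s < P) (hx : x < Q) :
    decF F P Q ((s : ℤ) + P * x + (P * Q : ℕ) * m) = F s x m := by
  have hP : (0 : ℤ) < P := by exact_mod_cast (by omega : 0 < P)
  have hQ : (0 : ℤ) < Q := by exact_mod_cast (by omega : 0 < Q)
  have hs' : (s : ℤ) < P := by exact_mod_cast hs
  have hx' : (x : ℤ) < Q := by exact_mod_cast hx
  have e0 : (s : ℤ) + P * x + (P * Q : ℕ) * m = s + P * (x + Q * m) := by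
    push_cast
    ring
  have e1 : ((s : ℤ) + P * (x + Q * m)) % P = s := by
    rw [Int.add_mul_emod_self_left]
    exact Int.emod_eq_of_lt (Int.natCast_nonneg s) hs'
  have e2 : ((s : ℤ) + P * (x + Q * m)) / P = x + Q * m := by
    rw [Int.add_mul_ediv_left _ _ hP.ne', Int.ediv_eq_zero_of_lt (Int.natCast_nonneg s) hs',
      zero_add]
  have e3 : ((x : ℤ) + Q * m) % Q = x := by
    rw [Int.add_mul_emod_self_left]
    exact Int.emod_eq_of_lt (Int.natCast_nonneg x) hx'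
  have e4 : ((x : ℤ) + Q * m) / Q = m := by
    rw [Int.add_mul_ediv_left _ _ hQ.ne', Int.ediv_eq_zero_of_lt (Int.natCast_nonneg x) hx',
      zero_add]
  unfold decF
  rw [e0, e1, e2, e3, e4]
  simp

/-- (VC) -/
theorem vc : VCStmt := by
  intro k J A B M F hs xt ρ hJ hA hB hM hF h1 h2
  have hAr : (0 : ℝ) < A := by exact_mod_cast hA
  have hBr : (0 : ℝ) < B := by exact_mod_cast hB
  have hMr : (0 : ℝ) < M := by exact_mod_cast hM
  have hρ : 0 ≤ ρ := by
    have h3 : (0 : ℝ) ≤ ρ * A := le_trans (Nat.cast_nonneg _) h1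
    by_contra hc
    push Not at hc
    have := mul_neg_of_neg_of_pos hc hAr
    linarith
  set P : ℕ := A + J * ∑ l, hs l with hP
  set Q : ℕ := B + J * ∑ l, xt l with hQ
  set f : ℤ → ℝ := decF F P Q with hf
  set t : Fin k → ℤ := fun l => (hs l : ℤ) + P * (xt l : ℤ) with ht
  set c : Fin k → ℝ := fun l => 2 * (hs l : ℝ) / A + 2 * (xt l : ℝ) / B with hc
  have hcost : ∀ l, Shift (cellOm A B M) (cellPt 0 P (P * Q : ℕ)) (t l) (c l) := by
    intro l
    refine shift_add ?_ ?_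
    · refine shift_of_cost A B M 0 P (P * Q : ℕ) (hs l) (2 * (hs l : ℝ) / A) (Or.inl ?_)
      rw [div_mul_cancel₀ _ hAr.ne']
      simp
    · refine shift_of_cost A B M 0 P (P * Q : ℕ) (P * (xt l : ℤ)) (2 * (xt l : ℝ) / B)
        (Or.inr ⟨xt l, rfl, ?_⟩)
      rw [div_mul_cancel₀ _ hBr.ne']
      simp
  have hcard : 0 < (cellOm A B M).card := by
    rw [cellOm_card]
    positivity
  have hmain := gvdc (cellOm A B M) hcard (cellPt 0 P (P * Q : ℕ)) k f (fun z => hF _ _ _) 0 t J 0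
    c hJ le_rfl (fun l => by simp only [hc]; positivity) (shift_zero _ _) hcost
  -- the cardinality
  have hcr : (((cellOm A B M).card : ℕ) : ℝ) = (A : ℝ) * B * M := by
    rw [cellOm_card]
    push_cast
    ring
  -- rewriting sums over the cell
  have hsum : ∀ G : ℕ → ℕ → ℕ → ℝ, ∑ w ∈ cellOm A B M, G w.1 w.2.1 w.2.2 =
      ∑ m ∈ range M, ∑ x ∈ range B, ∑ s ∈ range A, G s x m := by
    intro G
    unfold cellOm
    rw [Finset.sum_product]
    have e1 : ∀ s ∈ range A, ∑ y ∈ range B ×ˢ range M, G (s, y).1 (s, y).2.1 (s, y).2.2 =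
        ∑ m ∈ range M, ∑ x ∈ range B, G s x m := by
      intro s _
      rw [Finset.sum_product, Finset.sum_comm]
    rw [Finset.sum_congr rfl e1, Finset.sum_comm]
    refine Finset.sum_congr rfl fun m _ => ?_
    rw [Finset.sum_comm]
  have hL : ∑ w ∈ cellOm A B M, f (cellPt 0 P (P * Q : ℕ) w) =
      ∑ m ∈ range M, ∑ x ∈ range B, ∑ s ∈ range A, F s x m := by
    rw [← hsum]
    refine Finset.sum_congr rfl fun w hw => ?_
    simp only [cellOm, Finset.mem_product, Finset.mem_range] at hw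
    unfold cellPt
    rw [zero_add, hf]
    exact decF_eq F P Q w.1 w.2.1 w.2.2 (by omega) (by omega)
  have hR : ∑ j ∈ box k J, ∑ w ∈ cellOm A B M, ∏ η : Fin k → Bool,
      f (cellPt 0 P (P * Q : ℕ) w + psi 0 t η j) =
      ∑ j ∈ box k J, ∑ m ∈ range M, ∑ x ∈ range B, ∑ s ∈ range A, ∏ η : Fin k → Bool,
        F (s + ∑ l, j.2 (l, η l) * hs l) (x + ∑ l, j.2 (l, η l) * xt l) m := by
    refine Finset.sum_congr rfl fun j hj => ?_
    simp only [box, Finset.mem_product, Fintype.mem_piFinset, Finset.mem_range] at hj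
    rw [← hsum (fun s x m => ∏ η : Fin k → Bool,
        F (s + ∑ l, j.2 (l, η l) * hs l) (x + ∑ l, j.2 (l, η l) * xt l) m)]
    refine Finset.sum_congr rfl fun w hw => Finset.prod_congr rfl fun η _ => ?_
    simp only [cellOm, Finset.mem_product, Finset.mem_range] at hw
    have e1 : ∑ l, j.2 (l, η l) * hs l ≤ J * ∑ l, hs l := by
      rw [Finset.mul_sum]
      exact Finset.sum_le_sum fun l _ => Nat.mul_le_mul_right _ (hj.2 (l, η l)).le
    have e2 : ∑ l, j.2 (l, η l) * xt l ≤ J * ∑ l, xt l := by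
      rw [Finset.mul_sum]
      exact Finset.sum_le_sum fun l _ => Nat.mul_le_mul_right _ (hj.2 (l, η l)).le
    have e3 : cellPt 0 P (P * Q : ℕ) w + psi 0 t η j =
        ((w.1 + ∑ l, j.2 (l, η l) * hs l : ℕ) : ℤ) +
          P * ((w.2.1 + ∑ l, j.2 (l, η l) * xt l : ℕ) : ℤ) + (P * Q : ℕ) * w.2.2 := by
      unfold cellPt psi
      simp only [ht]
      push_cast
      have e4 : ∑ l, (j.2 (l, η l) : ℤ) * ((hs l : ℤ) + P * (xt l : ℤ)) =
          ∑ l, (j.2 (l, η l) : ℤ) * (hs l : ℤ) + P * ∑ l, (j.2 (l, η l) : ℤ) * (xt l : ℤ) := by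
        rw [Finset.mul_sum, ← Finset.sum_add_distrib]
        refine Finset.sum_congr rfl fun l _ => ?_
        ring
      rw [e4]
      ring
    rw [e3, hf]
    exact decF_eq F P Q _ _ _ (by omega) (by omega)
  rw [hL, hR, hcr] at hmain
  have hbox : (0 : ℝ) ≤ (A : ℝ) * B * M * (box k J).card := by positivity
  have e5 : |(∑ j ∈ box k J, ∑ m ∈ range M, ∑ x ∈ range B, ∑ s ∈ range A,
      ∏ η : Fin k → Bool, F (s + ∑ l, j.2 (l, η l) * hs l) (x + ∑ l, j.2 (l, η l) * xt l) m) /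
          ((A : ℝ) * B * M * (box k J).card)| =
      |∑ j ∈ box k J, ∑ m ∈ range M, ∑ x ∈ range B, ∑ s ∈ range A,
      ∏ η : Fin k → Bool, F (s + ∑ l, j.2 (l, η l) * hs l) (x + ∑ l, j.2 (l, η l) * xt l) m| /
          ((A : ℝ) * B * M * (box k J).card) := by
    rw [abs_div, abs_of_nonneg hbox]
  rw [e5]
  refine hmain.trans (add_le_add le_rfl ?_)
  -- the cost
  have hcs : (J : ℝ) * (0 + ∑ l, c l) ≤ 4 * ρ := by
    have e6 : ∑ l, c l = 2 * (∑ l, (hs l : ℝ)) / A + 2 * (∑ l, (xt l : ℝ)) / B := by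
      simp only [hc]
      rw [Finset.sum_add_distrib, ← Finset.sum_div, ← Finset.sum_div, ← Finset.mul_sum,
        ← Finset.mul_sum]
    push_cast at h1 h2
    have e7 : (J : ℝ) * (∑ l, (hs l : ℝ)) / A ≤ ρ := by
      rw [div_le_iff₀ hAr]
      exact h1
    have e8 : (J : ℝ) * (∑ l, (xt l : ℝ)) / B ≤ ρ := by
      rw [div_le_iff₀ hBr]
      exact h2
    have e9 : (J : ℝ) * (0 + ∑ l, c l) = 2 * ((J : ℝ) * (∑ l, (hs l : ℝ)) / A) +
        2 * ((J : ℝ) * (∑ l, (xt l : ℝ)) / B) := by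
      rw [e6]
      ring
    rw [e9]
    linarith
  have h4k : (0 : ℝ) ≤ 4 ^ k := by positivity
  have := mul_le_mul_of_nonneg_left hcs (by positivity : (0 : ℝ) ≤ 4 * 4 ^ k)
  refine this.trans ?_
  nlinarith [mul_nonneg h4k hρ]

end Pool.Agent.H59.T4
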