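import Pool.Agent.H20.T4.Stm2
import Pool.Agent.H9.TC.V

/-!
# Project T4 (MP_b6022c_nt), row BA: block average
-/

set_option autoImplicit false

namespace Pool.Agent.H59.T4

open Finset Pool.Agent.H9.TC Pool.Agent.H20.T4

theorem sum_blocks (K M : ℕ) (F : ℕ → ℝ) :
    ∑ n ∈ range (K * M), F n = ∑ m ∈ range M, ∑ y ∈ range K, F (K * m + y) := by
  induction M with
  | zero => simp
  | succ M ih =>
    rw [Nat.mul_succ, Finset.sum_range_add, ih, Finset.sum_range_succ]

theorem nat_shift (F : ℕ → ℝ) (hF : ∀ n, |F n| ≤ 1) (K z c : ℕ) :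
    |∑ y ∈ range K, F (y + c) - ∑ y ∈ range K, F (y + z + c)| ≤ 2 * z := by
  have h := vdc_shift (fun x => F (x.toNat + c)) (fun x => hF _) K (z : ℤ)
  have e1 : ∑ m ∈ range K, F (((m : ℤ)).toNat + c) = ∑ y ∈ range K, F (y + c) := by simp
  have e2 : ∑ m ∈ range K, F (((m : ℤ) + z).toNat + c) = ∑ y ∈ range K, F (y + z + c) := by
    refine Finset.sum_congr rfl fun m _ => ?_
    have : ((m : ℤ) + z).toNat = m + z := by omega
    rw [this]
  rw [e1, e2] at h
  simpa using h

/-- (BA) -/
theorem ba : BAStmt := by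
  intro a β A B M R Dd F ε hF hβ hA hB hε hR hcnt
  classical
  set S : ℕ → ℝ := fun n0 => ∑ m ∈ range M, ∑ x ∈ range B, ∑ s ∈ range A,
      F (n0 + s + Dd (n0 / 2 ^ β) * x + 2 ^ a * m) with hS
  have hAr : (0 : ℝ) < A := by exact_mod_cast hA
  have hBr : (0 : ℝ) < B := by exact_mod_cast hB
  -- trivial bound
  have hS1 : ∀ n0, |S n0| ≤ A * B * M := by
    intro n0
    have h1 := abs_sum_le_card (range M) (fun m => ∑ x ∈ range B, ∑ s ∈ range A,
      F (n0 + s + Dd (n0 / 2 ^ β) * x + 2 ^ a * m)) (B * A) (fun m _ => by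
        have h2 := abs_sum_le_card (range B) (fun x => ∑ s ∈ range A,
          F (n0 + s + Dd (n0 / 2 ^ β) * x + 2 ^ a * m)) A (fun x _ => by
            have h3 := abs_sum_le_card (range A) (fun s =>
              F (n0 + s + Dd (n0 / 2 ^ β) * x + 2 ^ a * m)) 1 (fun s _ => hF _)
            rwa [Finset.card_range, mul_one] at h3)
        rwa [Finset.card_range] at h2)
    rw [Finset.card_range] at h1
    refine h1.trans (le_of_eq ?_)
    ring
  -- sum over all cells
  have hT : |∑ n0 ∈ range (2 ^ a), S n0| ≤ 2 * ε * 2 ^ a * (A * B * M) := by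
    refine (Finset.abs_sum_le_sum_abs _ _).trans ?_
    have h1 : ∀ n0 ∈ range (2 ^ a), |S n0| ≤ ε * (A * B * M) +
        (if ¬ |S n0| ≤ ε * (A * B * M) then (A * B * M : ℝ) else 0) := by
      intro n0 _
      by_cases h : |S n0| ≤ ε * (A * B * M)
      · simp [h]
      · rw [if_pos h]
        have := hS1 n0
        have h0 : 0 ≤ ε * (A * B * M : ℝ) := by positivity
        linarith
    refine (Finset.sum_le_sum h1).trans ?_
    rw [Finset.sum_add_distrib, Finset.sum_const, Finset.card_range, nsmul_eq_mul,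
      ← Finset.sum_filter, Finset.sum_const, nsmul_eq_mul]
    have h2 : ((((range (2 ^ a)).filter (fun n0 => ¬ |S n0| ≤ ε * (A * B * M))).card : ℕ) : ℝ) ≤
        ε * 2 ^ a := by
      unfold cnt at hcnt
      convert hcnt
    have h3 : (0 : ℝ) ≤ A * B * M := by positivity
    have h4 := mul_le_mul_of_nonneg_right h2 h3
    push_cast
    linarith
  -- splitting in blocks
  have hpow : (2 : ℕ) ^ a = 2 ^ β * 2 ^ (a - β) := by
    rw [← pow_add]
    congr 1
    omega
  have hsplit : ∑ n0 ∈ range (2 ^ a), S n0 = ∑ b ∈ range (2 ^ (a - β)), ∑ m ∈ range M,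
      ∑ x ∈ range B, ∑ s ∈ range A, ∑ y ∈ range (2 ^ β),
        F (y + (s + Dd b * x) + (2 ^ β * b + 2 ^ a * m)) := by
    rw [hpow, sum_blocks, ← hpow]
    refine Finset.sum_congr rfl fun b _ => ?_
    have h1 : ∀ y ∈ range (2 ^ β), S (2 ^ β * b + y) = ∑ m ∈ range M, ∑ x ∈ range B,
        ∑ s ∈ range A, F (y + (s + Dd b * x) + (2 ^ β * b + 2 ^ a * m)) := by
      intro y hy
      have hb : (2 ^ β * b + y) / 2 ^ β = b := by
        rw [Nat.mul_add_div (by positivity), Nat.div_eq_of_lt (Finset.mem_range.mp hy), add_zero]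
      simp only [hS]
      rw [hb]
      refine Finset.sum_congr rfl fun m _ => Finset.sum_congr rfl fun x _ =>
        Finset.sum_congr rfl fun s _ => ?_
      congr 1
      ring
    rw [Finset.sum_congr rfl h1, Finset.sum_comm]
    refine Finset.sum_congr rfl fun m _ => ?_
    rw [Finset.sum_comm]
    refine Finset.sum_congr rfl fun x _ => ?_
    rw [Finset.sum_comm]
  have hsplit2 : (A : ℝ) * B * ∑ n ∈ range (2 ^ a * M), F n = ∑ b ∈ range (2 ^ (a - β)),
      ∑ m ∈ range M, ∑ _x ∈ range B, ∑ _s ∈ range A, ∑ y ∈ range (2 ^ β),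
        F (y + (2 ^ β * b + 2 ^ a * m)) := by
    rw [sum_blocks]
    have h1 : ∑ m ∈ range M, ∑ y ∈ range (2 ^ a), F (2 ^ a * m + y) = ∑ m ∈ range M,
        ∑ b ∈ range (2 ^ (a - β)), ∑ y ∈ range (2 ^ β), F (y + (2 ^ β * b + 2 ^ a * m)) := by
      refine Finset.sum_congr rfl fun m _ => ?_
      have h2 := sum_blocks (2 ^ β) (2 ^ (a - β)) (fun y => F (2 ^ a * m + y))
      rw [← hpow] at h2
      rw [h2]
      refine Finset.sum_congr rfl fun b _ => Finset.sum_congr rfl fun y _ => ?_
      congr 1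
      ring
    rw [h1, Finset.sum_comm]
    simp only [Finset.sum_const, Finset.card_range, nsmul_eq_mul]
    rw [Finset.mul_sum]
    refine Finset.sum_congr rfl fun b _ => ?_
    rw [Finset.mul_sum]
    refine Finset.sum_congr rfl fun m _ => ?_
    ring
  have hdiff : |(A : ℝ) * B * ∑ n ∈ range (2 ^ a * M), F n - ∑ n0 ∈ range (2 ^ a), S n0| ≤
      2 ^ (a - β) * (M * (B * (A * (2 * R)))) := by
    rw [hsplit, hsplit2, ← Finset.sum_sub_distrib]
    have h0 := abs_sum_le_card (range (2 ^ (a - β))) (fun b =>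
      ∑ m ∈ range M, ∑ _x ∈ range B, ∑ _s ∈ range A, ∑ y ∈ range (2 ^ β),
        F (y + (2 ^ β * b + 2 ^ a * m)) -
      ∑ m ∈ range M, ∑ x ∈ range B, ∑ s ∈ range A, ∑ y ∈ range (2 ^ β),
        F (y + (s + Dd b * x) + (2 ^ β * b + 2 ^ a * m))) (M * (B * (A * (2 * R))))
        (fun b _ => by
        rw [← Finset.sum_sub_distrib]
        have h1 := abs_sum_le_card (range M) (fun m =>
          ∑ _x ∈ range B, ∑ _s ∈ range A, ∑ y ∈ range (2 ^ β),
            F (y + (2 ^ β * b + 2 ^ a * m)) -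
          ∑ x ∈ range B, ∑ s ∈ range A, ∑ y ∈ range (2 ^ β),
            F (y + (s + Dd b * x) + (2 ^ β * b + 2 ^ a * m))) (B * (A * (2 * R)))
          (fun m _ => by
          rw [← Finset.sum_sub_distrib]
          have h2 := abs_sum_le_card (range B) (fun x =>
            ∑ _s ∈ range A, ∑ y ∈ range (2 ^ β), F (y + (2 ^ β * b + 2 ^ a * m)) -
            ∑ s ∈ range A, ∑ y ∈ range (2 ^ β),
              F (y + (s + Dd b * x) + (2 ^ β * b + 2 ^ a * m))) (A * (2 * R))
            (fun x hx => by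
            rw [← Finset.sum_sub_distrib]
            have h3 := abs_sum_le_card (range A) (fun s =>
              ∑ y ∈ range (2 ^ β), F (y + (2 ^ β * b + 2 ^ a * m)) -
              ∑ y ∈ range (2 ^ β), F (y + (s + Dd b * x) + (2 ^ β * b + 2 ^ a * m))) (2 * R)
              (fun s hs => by
              refine (nat_shift F hF (2 ^ β) (s + Dd b * x) (2 ^ β * b + 2 ^ a * m)).trans ?_
              have h4 : s + Dd b * x ≤ R := by
                refine le_trans ?_ (hR b)
                have h5 := (Finset.mem_range.mp hs).le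
                have h6 : Dd b * x ≤ B * Dd b := by
                  rw [mul_comm]
                  exact Nat.mul_le_mul_right _ (Finset.mem_range.mp hx).le
                exact Nat.add_le_add h5 h6
              have h7 : ((s + Dd b * x : ℕ) : ℝ) ≤ R := by exact_mod_cast h4
              linarith)
            rwa [Finset.card_range] at h3)
          rwa [Finset.card_range] at h2)
        rwa [Finset.card_range] at h1)
    rw [Finset.card_range] at h0
    push_cast at h0
    exact h0
  -- conclusion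
  set P := ∑ n ∈ range (2 ^ a * M), F n with hP
  have hAB : (0 : ℝ) < A * B := by positivity
  have h1 : (A * B : ℝ) * |P| ≤ (A * B) * (2 * ε * 2 ^ a * M + 2 * 2 ^ (a - β) * R * M) := by
    have e1 : (A * B : ℝ) * |P| = |(A : ℝ) * B * P| := by
      rw [abs_mul, abs_of_pos hAB]
    rw [e1]
    have h2 : |(A : ℝ) * B * P| ≤ |(A : ℝ) * B * P - ∑ n0 ∈ range (2 ^ a), S n0| +
        |∑ n0 ∈ range (2 ^ a), S n0| := by
      have := abs_add_le ((A : ℝ) * B * P - ∑ n0 ∈ range (2 ^ a), S n0)
        (∑ n0 ∈ range (2 ^ a), S n0)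
      rwa [sub_add_cancel] at this
    refine h2.trans ((add_le_add hdiff hT).trans (le_of_eq ?_))
    ring
  exact le_of_mul_le_mul_left h1 hAB

end Pool.Agent.H59.T4
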