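import Pool.Agent.H9.TC.V

/-!
# Project T4 (MP_b6022c_nt): iterated van der Corput inside a cell, and shifts of a cell

A cell is a finite set `Om` with a map `nn : Om -> Z`; `Shift Om nn t c` says that the shift by
`a t` changes the average over the cell of any function bounded by one by at most `a c`.
The concrete cell of the project is `n0 + s + D x + A m`, `s < S`, `x < X`, `m < M`.
-/

set_option autoImplicit false

namespace Pool.Agent.H59.T4

open Finset hiding box
open Pool.Agent.H9.TC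

/-! ### General cells -/

/-- The shift by `a t` changes the sum over the cell of a function bounded by one by at most
`a c |Om|`. -/
def Shift {ι : Type*} (Om : Finset ι) (nn : ι → ℤ) (t : ℤ) (c : ℝ) : Prop :=
  ∀ g : ℤ → ℝ, (∀ x, |g x| ≤ 1) → ∀ a : ℕ,
    |∑ w ∈ Om, g (nn w) - ∑ w ∈ Om, g (nn w + a * t)| ≤ a * c * Om.card

theorem gclose {κ ι : Type*} (X : Finset κ) (Om : Finset ι) (nn : ι → ℤ) (F : κ → ℤ → ℝ)
    (hF : ∀ x m, |F x m| ≤ 1) (t : ℤ) (c : ℝ) (hc : 0 ≤ c) (ht : Shift Om nn t c) (J : ℕ) :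
    |(J : ℝ) * (∑ x ∈ X, ∑ w ∈ Om, F x (nn w)) -
      ∑ x ∈ X, ∑ w ∈ Om, ∑ a ∈ range J, F x (nn w + a * t)| ≤
      X.card * ((J : ℝ) ^ 2 / 2 * c * Om.card) := by
  rw [Finset.mul_sum, ← Finset.sum_sub_distrib]
  refine abs_sum_le_card X _ _ fun x _ => ?_
  rw [Finset.sum_comm]
  have h1 : (J : ℝ) * ∑ w ∈ Om, F x (nn w) = ∑ _a ∈ range J, ∑ w ∈ Om, F x (nn w) := by
    rw [Finset.sum_const, Finset.card_range, nsmul_eq_mul]
  rw [h1, ← Finset.sum_sub_distrib]
  refine (Finset.abs_sum_le_sum_abs _ _).trans ?_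
  have h2 : ∀ a ∈ range J, |∑ w ∈ Om, F x (nn w) - ∑ w ∈ Om, F x (nn w + a * t)| ≤
      2 * (a : ℝ) * (c * Om.card / 2) := by
    intro a _
    refine (ht (F x) (hF x) a).trans (le_of_eq ?_)
    ring
  refine (Finset.sum_le_sum h2).trans ?_
  rw [← Finset.sum_mul]
  refine (mul_le_mul_of_nonneg_right (sum_two_mul_le J) (by positivity)).trans (le_of_eq ?_)
  ring

theorem gcs {κ ι : Type*} (X : Finset κ) (Om : Finset ι) (nn : ι → ℤ) (F : κ → ℤ → ℝ) (t : ℤ)
    (J : ℕ) :
    (∑ x ∈ X, ∑ w ∈ Om, ∑ a ∈ range J, F x (nn w + a * t)) ^ 2 ≤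
      ((Om.card : ℝ) * X.card) * ∑ x ∈ X, ∑ a ∈ range J, ∑ b ∈ range J, ∑ w ∈ Om,
        F x (nn w + a * t) * F x (nn w + b * t) := by
  have h1 : ∑ x ∈ X, ∑ w ∈ Om, ∑ a ∈ range J, F x (nn w + a * t) =
      ∑ p ∈ X ×ˢ Om, ∑ a ∈ range J, F p.1 (nn p.2 + a * t) := by
    rw [Finset.sum_product]
  have h2 : ∑ x ∈ X, ∑ a ∈ range J, ∑ b ∈ range J, ∑ w ∈ Om,
        F x (nn w + a * t) * F x (nn w + b * t) =
      ∑ p ∈ X ×ˢ Om, (∑ a ∈ range J, F p.1 (nn p.2 + a * t)) ^ 2 := by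
    rw [Finset.sum_product]
    refine Finset.sum_congr rfl fun x _ => ?_
    have h3 : ∀ w ∈ Om, (∑ a ∈ range J, F x (nn w + a * t)) ^ 2 =
        ∑ a ∈ range J, ∑ b ∈ range J, F x (nn w + a * t) * F x (nn w + b * t) := by
      intro w _
      rw [sq, Finset.sum_mul_sum]
    symm
    rw [Finset.sum_congr rfl h3, Finset.sum_comm]
    refine Finset.sum_congr rfl fun a _ => ?_
    rw [Finset.sum_comm]
  rw [h1, h2]
  refine (sq_sum_le_card_mul_sum_sq).trans ?_
  rw [Finset.card_product]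
  push_cast
  rw [mul_comm (X.card : ℝ)]

theorem gstep {κ ι : Type*} (X : Finset κ) (hX : 0 < X.card) (Om : Finset ι)
    (hOm : 0 < Om.card) (nn : ι → ℤ) (F : κ → ℤ → ℝ)
    (hF : ∀ x m, |F x m| ≤ 1) (t : ℤ) (c : ℝ) (hc : 0 ≤ c) (ht : Shift Om nn t c)
    (J : ℕ) (hJ : 1 ≤ J) :
    (|∑ x ∈ X, ∑ w ∈ Om, F x (nn w)| / (Om.card * X.card)) ^ 2 ≤
      |∑ x ∈ X, ∑ a ∈ range J, ∑ b ∈ range J, ∑ w ∈ Om,
        F x (nn w + a * t) * F x (nn w + b * t)| / (Om.card * (X.card * J * J)) +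
        J * c := by
  set P := ∑ x ∈ X, ∑ w ∈ Om, F x (nn w) with hP
  set Q := ∑ x ∈ X, ∑ w ∈ Om, ∑ a ∈ range J, F x (nn w + a * t) with hQ
  set R := ∑ x ∈ X, ∑ a ∈ range J, ∑ b ∈ range J, ∑ w ∈ Om,
        F x (nn w + a * t) * F x (nn w + b * t) with hR
  have hXr : (0 : ℝ) < X.card := by exact_mod_cast hX
  have hJr : (0 : ℝ) < J := by exact_mod_cast hJ
  have hMr : (0 : ℝ) < Om.card := by exact_mod_cast hOm
  have h1 : |(J : ℝ) * P - Q| ≤ X.card * ((J : ℝ) ^ 2 / 2 * c * Om.card) :=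
    gclose X Om nn F hF t c hc ht J
  have h2 : Q ^ 2 ≤ ((Om.card : ℝ) * X.card) * R := gcs X Om nn F t J
  have hP1 : |P| ≤ Om.card * X.card := by
    have := abs_sum_le_card X (fun x => ∑ w ∈ Om, F x (nn w)) Om.card (fun x _ => by
      have := abs_sum_le_card Om (fun w => F x (nn w)) 1 (fun w _ => hF x _)
      rwa [mul_one] at this)
    rw [mul_comm]
    exact this
  have hQ1 : |Q| ≤ Om.card * X.card * J := by
    have := abs_sum_le_card X (fun x => ∑ w ∈ Om, ∑ a ∈ range J, F x (nn w + a * t))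
      (Om.card * J) (fun x _ => by
      have := abs_sum_le_card Om (fun w => ∑ a ∈ range J, F x (nn w + a * t)) J
        (fun w _ => by
          have := abs_sum_le_card (range J) (fun a : ℕ => F x (nn w + a * t)) 1
            (fun a _ => hF x _)
          rwa [Finset.card_range, mul_one] at this)
      exact this)
    calc |Q| ≤ _ := this
      _ = _ := by ring
  -- normalised
  set A := |P| / (Om.card * X.card) with hA
  set A' := |Q| / (Om.card * X.card * J) with hA'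
  have hA1 : A ≤ 1 := by rw [hA, div_le_one (by positivity)]; exact hP1
  have hA'1 : A' ≤ 1 := by rw [hA', div_le_one (by positivity)]; exact hQ1
  have hA0 : 0 ≤ A := by positivity
  have hA'0 : 0 ≤ A' := by positivity
  have hAA : A - A' ≤ J * c / 2 := by
    rw [hA, hA', div_sub_div _ _ (by positivity) (by positivity),
      div_le_div_iff₀ (by positivity) (by norm_num)]
    have h3 : (J : ℝ) * |P| - |Q| ≤ X.card * ((J : ℝ) ^ 2 / 2 * c * Om.card) := by
      refine le_trans ?_ h1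
      have : (J : ℝ) * |P| = |(J : ℝ) * P| := by rw [abs_mul, abs_of_pos hJr]
      rw [this]
      exact abs_sub_abs_le_abs_sub _ _
    have h4 : (|P| * (Om.card * X.card * J) - Om.card * X.card * |Q|) * 2 =
        (Om.card * X.card * 2) * ((J : ℝ) * |P| - |Q|) := by ring
    rw [h4]
    calc (Om.card * X.card * 2 : ℝ) * ((J : ℝ) * |P| - |Q|)
        ≤ (Om.card * X.card * 2 : ℝ) * (X.card * ((J : ℝ) ^ 2 / 2 * c * Om.card)) :=
          mul_le_mul_of_nonneg_left h3 (by positivity)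
      _ = _ := by ring
  have hA'2 : A' ^ 2 ≤ |R| / (Om.card * (X.card * J * J)) := by
    rw [hA', div_pow, sq_abs, div_le_div_iff₀ (by positivity) (by positivity)]
    have h5 : Q ^ 2 ≤ ((Om.card : ℝ) * X.card) * |R| :=
      h2.trans (mul_le_mul_of_nonneg_left (le_abs_self R) (by positivity))
    calc Q ^ 2 * (Om.card * (X.card * J * J))
        ≤ (((Om.card : ℝ) * X.card) * |R|) * (Om.card * (X.card * J * J)) :=
          mul_le_mul_of_nonneg_right h5 (by positivity)
      _ = _ := by ring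
  have hd : (0 : ℝ) ≤ J * c := by positivity
  have : A ^ 2 ≤ A' ^ 2 + J * c := by
    by_cases h : A ≤ A'
    · nlinarith
    · push Not at h
      nlinarith
  linarith

theorem gzero {ι : Type*} (Om : Finset ι) (hOm : 0 < Om.card) (nn : ι → ℤ)
    (f : ℤ → ℝ) (hf : ∀ x, |f x| ≤ 1) (t0 : ℤ) (t : Fin 0 → ℤ) (J : ℕ) (c0 : ℝ) (c : Fin 0 → ℝ)
    (hJ : 1 ≤ J) (hc0 : 0 ≤ c0) (h0 : Shift Om nn t0 c0) :
    |(∑ w ∈ Om, f (nn w)) / Om.card| ^ (2 ^ 0) ≤
      |∑ j ∈ box 0 J, ∑ w ∈ Om, ∏ η : Fin 0 → Bool, f (nn w + psi t0 t η j)| /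
        (Om.card * (box 0 J).card) + 4 * 4 ^ 0 * (J * (c0 + ∑ l, c l)) := by
  have hJr : (0 : ℝ) < J := by exact_mod_cast hJ
  have hMr : (0 : ℝ) < Om.card := by exact_mod_cast hOm
  have h1 := gclose ({()} : Finset Unit) Om nn (fun _ => f) (fun _ => hf) t0 c0 hc0 h0 J
  simp only [Finset.sum_singleton, Finset.card_singleton, Nat.cast_one, one_mul] at h1
  have h2 : ∑ j ∈ box 0 J, ∑ w ∈ Om, ∏ η : Fin 0 → Bool, f (nn w + psi t0 t η j) =
      ∑ w ∈ Om, ∑ a ∈ range J, f (nn w + a * t0) := by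
    unfold box
    rw [Finset.sum_product, Finset.sum_comm (s := Om)]
    refine Finset.sum_congr rfl fun a _ => ?_
    rw [Fintype.piFinset_of_isEmpty, Fintype.sum_unique]
    simp [psi]
  rw [h2, box_card]
  set P := ∑ w ∈ Om, f (nn w)
  set Q := ∑ w ∈ Om, ∑ a ∈ range J, f (nn w + a * t0)
  have h3 : (J : ℝ) * |P| ≤ |Q| + (J : ℝ) ^ 2 / 2 * c0 * Om.card := by
    have : (J : ℝ) * |P| = |(J : ℝ) * P| := by rw [abs_mul, abs_of_pos hJr]
    rw [this]
    have := abs_sub_abs_le_abs_sub ((J : ℝ) * P) Q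
    linarith
  have h4 : |P / Om.card| ^ (2 ^ 0) = |P| / Om.card := by
    rw [pow_zero, pow_one, abs_div, abs_of_pos hMr]
  have h5 : ((J * J ^ (0 * 2) : ℕ) : ℝ) = J := by simp
  rw [h4, h5]
  have h6 : |P| / Om.card ≤ |Q| / (Om.card * J) + J / 2 * c0 := by
    rw [div_add' _ _ _ (by positivity), div_le_div_iff₀ hMr (by positivity)]
    nlinarith [mul_le_mul_of_nonneg_left h3 hMr.le]
  have h9 : (J : ℝ) / 2 * c0 ≤ 4 * 4 ^ 0 * (J * (c0 + ∑ l, c l)) := by
    simp only [Finset.univ_eq_empty, Finset.sum_empty, add_zero, pow_zero, mul_one]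
    nlinarith [mul_nonneg hJr.le hc0]
  linarith

/-- Iterated van der Corput inside a general cell. -/
theorem gvdc {ι : Type*} (Om : Finset ι) (hOm : 0 < Om.card) (nn : ι → ℤ) (k : ℕ) :
    ∀ (f : ℤ → ℝ), (∀ x, |f x| ≤ 1) → ∀ (t0 : ℤ) (t : Fin k → ℤ) (J : ℕ) (c0 : ℝ)
      (c : Fin k → ℝ), 1 ≤ J → 0 ≤ c0 → (∀ l, 0 ≤ c l) → Shift Om nn t0 c0 →
      (∀ l, Shift Om nn (t l) (c l)) →
    |(∑ w ∈ Om, f (nn w)) / Om.card| ^ (2 ^ k) ≤
      |∑ j ∈ box k J, ∑ w ∈ Om, ∏ η : Fin k → Bool, f (nn w + psi t0 t η j)| /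
        (Om.card * (box k J).card) + 4 * 4 ^ k * (J * (c0 + ∑ l, c l)) := by
  induction k with
  | zero =>
    intro f hf t0 t J c0 c hJ hc0 _ h0 _
    exact gzero Om hOm nn f hf t0 t J c0 c hJ hc0 h0
  | succ k ih =>
    intro f hf t0 t J c0 c hJ hc0 hc h0 ht
    have hJr : (0 : ℝ) < J := by exact_mod_cast hJ
    have hMr : (0 : ℝ) < Om.card := by exact_mod_cast hOm
    have hIH := ih f hf t0 (fun l => t l.succ) J c0 (fun l => c l.succ) hJ hc0
      (fun l => hc l.succ) h0 (fun l => ht l.succ)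
    have hcs : ∑ l : Fin (k + 1), c l = c 0 + ∑ l : Fin k, c l.succ := Fin.sum_univ_succ c
    have hc1 : 0 ≤ ∑ l : Fin k, c l.succ := Finset.sum_nonneg fun l _ => hc l.succ
    have hc2 : 0 ≤ c 0 := hc 0
    set a := |(∑ w ∈ Om, f (nn w)) / Om.card| with ha
    have ha0 : 0 ≤ a := abs_nonneg _
    have ha1 : a ≤ 1 := by
      rw [ha, abs_div, abs_of_pos hMr, div_le_one hMr]
      have := abs_sum_le_card Om (fun w => f (nn w)) 1 (fun w _ => hf _)
      rwa [mul_one] at this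
    have hcard : 0 < (box k J).card := by
      rw [box_card]
      positivity
    have hst := gstep (box k J) hcard Om hOm nn
      (fun j m => ∏ η : Fin k → Bool, f (m + psi t0 (fun l => t l.succ) η j))
      (fun j m => abs_prod_le_one _ _ fun η _ => hf _) (t 0) (c 0) (hc 0) (ht 0) J hJ
    have e1 : ∑ j ∈ box (k + 1) J, ∑ w ∈ Om,
        ∏ η : Fin (k + 1) → Bool, f (nn w + psi t0 t η j) =
        ∑ j ∈ box k J, ∑ a ∈ range J, ∑ b ∈ range J, ∑ w ∈ Om,
          (∏ η : Fin k → Bool, f (nn w + a * t 0 + psi t0 (fun l => t l.succ) η j)) *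
          ∏ η : Fin k → Bool, f (nn w + b * t 0 + psi t0 (fun l => t l.succ) η j) := by
      rw [sum_box_succ]
      refine Finset.sum_congr rfl fun j _ => Finset.sum_congr rfl fun a _ =>
        Finset.sum_congr rfl fun b _ => Finset.sum_congr rfl fun w _ => ?_
      rw [prod_fun_succ]
      simp only [psi_ext]
      congr 1
      · refine Finset.prod_congr rfl fun η _ => ?_
        congr 1
        simp only [Bool.false_eq_true, if_false]
        ring
      · refine Finset.prod_congr rfl fun η _ => ?_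
        congr 1
        simp only [if_true]
        ring
    have e2 : ((Om.card : ℝ) * (box (k + 1) J).card) = (Om.card * ((box k J).card * J * J)) := by
      rw [box_card, box_card]
      push_cast
      ring
    rw [← e1, ← e2] at hst
    set A := |∑ j ∈ box k J, ∑ w ∈ Om,
      ∏ η : Fin k → Bool, f (nn w + psi t0 (fun l => t l.succ) η j)| /
        (Om.card * (box k J).card) with hA
    have hA0 : 0 ≤ A := by positivity
    have hA1 : A ≤ 1 := by
      have hc : (0 : ℝ) < (box k J).card := by exact_mod_cast hcard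
      rw [hA, div_le_one (by positivity)]
      have := abs_sum_le_card (box k J) (fun j => ∑ w ∈ Om,
        ∏ η : Fin k → Bool, f (nn w + psi t0 (fun l => t l.succ) η j)) Om.card (fun j _ => by
        have := abs_sum_le_card Om (fun w =>
          ∏ η : Fin k → Bool, f (nn w + psi t0 (fun l => t l.succ) η j)) 1
          (fun w _ => abs_prod_le_one _ _ fun η _ => hf _)
        rwa [mul_one] at this)
      rw [mul_comm]
      exact this
    have hB0 : 0 ≤ |∑ j ∈ box (k + 1) J, ∑ w ∈ Om,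
        ∏ η : Fin (k + 1) → Bool, f (nn w + psi t0 t η j)| /
          (Om.card * (box (k + 1) J).card) := by
      positivity
    set B := |∑ j ∈ box (k + 1) J, ∑ w ∈ Om,
        ∏ η : Fin (k + 1) → Bool, f (nn w + psi t0 t η j)| /
          (Om.card * (box (k + 1) J).card)
    have hpow : a ^ (2 ^ (k + 1)) = (a ^ (2 ^ k)) ^ 2 := by
      rw [pow_succ 2 k, pow_mul]
    have hak : a ^ (2 ^ k) ≤ 1 := pow_le_one₀ ha0 ha1
    have hak0 : 0 ≤ a ^ (2 ^ k) := by positivity
    rw [hpow, hcs]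
    set T : ℝ := J * (c0 + (c 0 + ∑ l : Fin k, c l.succ)) with hT
    have hT1 : (J : ℝ) * (c0 + ∑ l : Fin k, c l.succ) ≤ T := by
      rw [hT]
      exact mul_le_mul_of_nonneg_left (by linarith) hJr.le
    have hT2 : (J : ℝ) * c 0 ≤ T := by
      rw [hT]
      exact mul_le_mul_of_nonneg_left (by linarith) hJr.le
    have hT0 : 0 ≤ T := le_trans (by positivity) hT2
    have h4k : (1 : ℝ) ≤ 4 ^ k := one_le_pow₀ (by norm_num)
    have e3 : (4 * 4 ^ (k + 1) * T : ℝ) = 16 * (4 ^ k * T) := by ring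
    set E : ℝ := 4 ^ k * T with hE
    have hE0 : 0 ≤ E := by positivity
    have hTE : T ≤ E := by rw [hE]; nlinarith
    have hI : a ^ (2 ^ k) ≤ A + 4 * E := by
      refine hIH.trans ?_
      have : 4 * 4 ^ k * ((J : ℝ) * (c0 + ∑ l : Fin k, c l.succ)) ≤ 4 * 4 ^ k * T :=
        mul_le_mul_of_nonneg_left hT1 (by positivity)
      have e5 : (4 * 4 ^ k * T : ℝ) = 4 * E := by rw [hE]; ring
      linarith
    rw [e3]
    by_cases hbig : 1 ≤ 4 * E
    · have : (a ^ (2 ^ k)) ^ 2 ≤ 1 := pow_le_one₀ hak0 hak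
      linarith
    · push Not at hbig
      have h1 : (a ^ (2 ^ k)) ^ 2 ≤ (A + 4 * E) ^ 2 := pow_le_pow_left₀ hak0 hI 2
      nlinarith

/-- The density of a property in a general cell is almost invariant under the shifts
`psi t0 t eta j`. -/
theorem gshift_psi {ι : Type*} (Om : Finset ι) (nn : ι → ℤ) (k J : ℕ) (t0 : ℤ)
    (t : Fin k → ℤ) (c0 : ℝ) (c : Fin k → ℝ) (hc0 : 0 ≤ c0) (hc : ∀ l, 0 ≤ c l)
    (h0 : Shift Om nn t0 c0) (ht : ∀ l, Shift Om nn (t l) (c l)) (g : ℤ → ℝ)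
    (hg : ∀ x, |g x| ≤ 1) (η : Fin k → Bool) (j : ℕ × (Fin k × Bool → ℕ)) (hj : j ∈ box k J) :
    |∑ w ∈ Om, g (nn w) - ∑ w ∈ Om, g (nn w + psi t0 t η j)| ≤
      J * (c0 + ∑ l, c l) * Om.card := by
  simp only [box, Finset.mem_product, Fintype.mem_piFinset, Finset.mem_range] at hj
  have key : ∀ s : Finset (Fin k), |∑ w ∈ Om, g (nn w) -
      ∑ w ∈ Om, g (nn w + ((j.1 : ℤ) * t0 + ∑ l ∈ s, (j.2 (l, η l) : ℤ) * t l))| ≤
      J * (c0 + ∑ l ∈ s, c l) * Om.card := by
    intro s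
    induction s using Finset.induction_on with
    | empty =>
      simp only [Finset.sum_empty, add_zero]
      refine (h0 g hg j.1).trans ?_
      have h1 : (j.1 : ℝ) ≤ J := by exact_mod_cast hj.1.le
      have := mul_le_mul_of_nonneg_right h1 hc0
      exact mul_le_mul_of_nonneg_right this (Nat.cast_nonneg _)
    | insert l s hl ih =>
      rw [Finset.sum_insert hl, Finset.sum_insert hl]
      set u : ℤ := (j.1 : ℤ) * t0 + ∑ l ∈ s, (j.2 (l, η l) : ℤ) * t l with hu
      have h1 := ht l (fun x => g (x + u)) (fun x => hg _) (j.2 (l, η l))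
      have h2 : ∀ w, g (nn w + ((j.1 : ℤ) * t0 + ((j.2 (l, η l) : ℤ) * t l +
          ∑ l ∈ s, (j.2 (l, η l) : ℤ) * t l))) =
          g (nn w + (j.2 (l, η l) : ℕ) * t l + u) := by
        intro w
        congr 1
        rw [hu]
        ring
      simp only [h2]
      have h3 : (j.2 (l, η l) : ℝ) ≤ J := by exact_mod_cast (hj.2 (l, η l)).le
      have h4 : (j.2 (l, η l) : ℝ) * c l * Om.card ≤ J * c l * Om.card :=
        mul_le_mul_of_nonneg_right (mul_le_mul_of_nonneg_right h3 (hc l)) (Nat.cast_nonneg _)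
      have h5 : (J : ℝ) * (c0 + (c l + ∑ l ∈ s, c l)) * Om.card =
          J * (c0 + ∑ l ∈ s, c l) * Om.card + J * c l * Om.card := by ring
      rw [h5]
      rw [abs_le] at *
      constructor <;> linarith [h1.1, h1.2, ih.1, ih.2]
  have := key Finset.univ
  exact this

/-! ### The concrete cell -/

/-- Sum of `f` over the cell `n0 + s + D x + A m`, `s < S`, `x < X`, `m < M`. -/
noncomputable def cellSum (S X M : ℕ) (n0 D A : ℤ) (f : ℤ → ℝ) : ℝ :=
  ∑ s ∈ range S, ∑ x ∈ range X, ∑ m ∈ range M, f (n0 + s + D * x + A * m)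

/-- Index set of the concrete cell. -/
def cellOm (S X M : ℕ) : Finset (ℕ × ℕ × ℕ) := range S ×ˢ range X ×ˢ range M

/-- The points of the concrete cell. -/
def cellPt (n0 D A : ℤ) (w : ℕ × ℕ × ℕ) : ℤ := n0 + w.1 + D * w.2.1 + A * w.2.2

theorem cellSum_eq (S X M : ℕ) (n0 D A : ℤ) (f : ℤ → ℝ) :
    cellSum S X M n0 D A f = ∑ w ∈ cellOm S X M, f (cellPt n0 D A w) := by
  unfold cellSum cellOm cellPt
  rw [Finset.sum_product]
  refine Finset.sum_congr rfl fun s _ => ?_
  rw [Finset.sum_product]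

theorem cellOm_card (S X M : ℕ) : (cellOm S X M).card = S * (X * M) := by
  unfold cellOm
  rw [Finset.card_product, Finset.card_product, Finset.card_range, Finset.card_range,
    Finset.card_range]

/-- The shift `t` costs at most `c` per step in the concrete cell. -/
def Cost (S X : ℕ) (D t : ℤ) (c : ℝ) : Prop :=
  2 * |(t : ℝ)| ≤ c * S ∨ ∃ u : ℤ, t = D * u ∧ 2 * |(u : ℝ)| ≤ c * X

theorem shift_of_cost (S X M : ℕ) (n0 D A t : ℤ) (c : ℝ) (h : Cost S X D t c) :
    Shift (cellOm S X M) (cellPt n0 D A) t c := by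
  intro g hg a
  rw [← cellSum_eq S X M n0 D A g]
  have e1 : ∑ w ∈ cellOm S X M, g (cellPt n0 D A w + a * t) =
      cellSum S X M n0 D A (fun n => g (n + a * t)) :=
    (cellSum_eq S X M n0 D A (fun n => g (n + a * t))).symm
  rw [e1, cellOm_card]
  unfold cellSum
  rcases h with h | ⟨u, rfl, h⟩
  · -- shift of `s`
    have h1 : ∀ F : ℕ → ℕ → ℕ → ℝ, ∑ s ∈ range S, ∑ x ∈ range X, ∑ m ∈ range M, F s x m =
        ∑ x ∈ range X, ∑ m ∈ range M, ∑ s ∈ range S, F s x m := by
      intro F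
      rw [Finset.sum_comm]
      refine Finset.sum_congr rfl fun x _ => ?_
      rw [Finset.sum_comm]
    rw [h1, h1, ← Finset.sum_sub_distrib]
    have h2 : ∀ x ∈ range X, |∑ m ∈ range M, ∑ s ∈ range S, g (n0 + s + D * x + A * m) -
        ∑ m ∈ range M, ∑ s ∈ range S, g (n0 + s + D * x + A * m + a * t)| ≤
        M * (a * c * S) := by
      intro x _
      rw [← Finset.sum_sub_distrib]
      have h3 := abs_sum_le_card (range M) (fun m : ℕ =>
        ∑ s ∈ range S, g (n0 + s + D * x + A * m) -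
        ∑ s ∈ range S, g (n0 + s + D * x + A * m + a * t)) (a * c * S) (fun m _ => by
          have h4 := vdc_shift (fun z => g (n0 + z + D * x + A * m)) (fun z => hg _) S (a * t)
          have h5 : ∑ s ∈ range S, g (n0 + s + D * x + A * m + a * t) =
              ∑ s ∈ range S, g (n0 + ((s : ℤ) + a * t) + D * x + A * m) := by
            refine Finset.sum_congr rfl fun s _ => ?_
            congr 1
            ring
          rw [h5]
          refine h4.trans ?_
          push_cast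
          rw [abs_mul, abs_of_nonneg (Nat.cast_nonneg a : (0 : ℝ) ≤ a)]
          nlinarith [(Nat.cast_nonneg a : (0 : ℝ) ≤ a)])
      rwa [Finset.card_range] at h3
    have h6 := abs_sum_le_card (range X) _ _ h2
    rw [Finset.card_range] at h6
    refine h6.trans (le_of_eq ?_)
    push_cast
    ring
  · rw [← Finset.sum_sub_distrib]
    have h2 : ∀ s ∈ range S, |∑ x ∈ range X, ∑ m ∈ range M, g (n0 + s + D * x + A * m) -
        ∑ x ∈ range X, ∑ m ∈ range M, g (n0 + s + D * x + A * m + a * (D * u))| ≤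
        M * (a * c * X) := by
      intro s _
      rw [Finset.sum_comm, Finset.sum_comm (s := range X), ← Finset.sum_sub_distrib]
      have h3 := abs_sum_le_card (range M) (fun m : ℕ =>
        ∑ x ∈ range X, g (n0 + s + D * x + A * m) -
        ∑ x ∈ range X, g (n0 + s + D * x + A * m + a * (D * u))) (a * c * X) (fun m _ => by
          have h4 := vdc_shift (fun z => g (n0 + s + D * z + A * m)) (fun z => hg _) X (a * u)
          have h5 : ∑ x ∈ range X, g (n0 + s + D * x + A * m + a * (D * u)) =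
              ∑ x ∈ range X, g (n0 + s + D * ((x : ℤ) + a * u) + A * m) := by
            refine Finset.sum_congr rfl fun x _ => ?_
            congr 1
            ring
          rw [h5]
          refine h4.trans ?_
          push_cast
          rw [abs_mul, abs_of_nonneg (Nat.cast_nonneg a : (0 : ℝ) ≤ a)]
          nlinarith [(Nat.cast_nonneg a : (0 : ℝ) ≤ a)])
      rwa [Finset.card_range] at h3
    have h6 := abs_sum_le_card (range S) _ _ h2
    rw [Finset.card_range] at h6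
    refine h6.trans (le_of_eq ?_)
    push_cast
    ring

/-- (V in a cell.) -/
theorem vCell (k : ℕ) (f : ℤ → ℝ) (hf : ∀ x, |f x| ≤ 1) (t0 : ℤ) (t : Fin k → ℤ)
    (J S X M : ℕ) (n0 D A : ℤ) (c0 : ℝ) (c : Fin k → ℝ) (hJ : 1 ≤ J) (hS : 1 ≤ S) (hX : 1 ≤ X)
    (hM : 1 ≤ M) (hc0 : 0 ≤ c0) (hc : ∀ l, 0 ≤ c l) (h0 : Cost S X D t0 c0)
    (ht : ∀ l, Cost S X D (t l) (c l)) :
    |cellSum S X M n0 D A f / ((S : ℝ) * X * M)| ^ (2 ^ k) ≤
      |∑ j ∈ box k J, cellSum S X M n0 D A (fun n => ∏ η : Fin k → Bool, f (n + psi t0 t η j))| /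
        ((S : ℝ) * X * M * (box k J).card) + 4 * 4 ^ k * (J * (c0 + ∑ l, c l)) := by
  have hcard : 0 < (cellOm S X M).card := by
    rw [cellOm_card]
    positivity
  have h := gvdc (cellOm S X M) hcard (cellPt n0 D A) k f hf t0 t J c0 c hJ hc0 hc
    (shift_of_cost S X M n0 D A t0 c0 h0) (fun l => shift_of_cost S X M n0 D A _ _ (ht l))
  have e1 : (((cellOm S X M).card : ℕ) : ℝ) = (S : ℝ) * X * M := by
    rw [cellOm_card]
    push_cast
    ring
  rw [e1, ← cellSum_eq] at h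
  have e2 : ∀ j, ∑ w ∈ cellOm S X M, ∏ η : Fin k → Bool, f (cellPt n0 D A w + psi t0 t η j) =
      cellSum S X M n0 D A (fun n => ∏ η : Fin k → Bool, f (n + psi t0 t η j)) := fun j =>
    (cellSum_eq S X M n0 D A (fun n => ∏ η : Fin k → Bool, f (n + psi t0 t η j))).symm
  simp only [e2] at h
  exact h

/-- One shift of the concrete cell. -/
theorem cell_shift (S X M : ℕ) (n0 D A t : ℤ) (c : ℝ) (h : Cost S X D t c) (g : ℤ → ℝ)
    (hg : ∀ x, |g x| ≤ 1) (a : ℕ) :
    |cellSum S X M n0 D A g - cellSum S X M n0 D A (fun n => g (n + a * t))| ≤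
      a * c * ((S : ℝ) * X * M) := by
  have h1 := shift_of_cost S X M n0 D A t c h g hg a
  rw [← cellSum_eq S X M n0 D A g, ← cellSum_eq S X M n0 D A (fun n => g (n + a * t)),
    cellOm_card] at h1
  refine h1.trans (le_of_eq ?_)
  push_cast
  ring

/-- Shift invariance of averages over the concrete cell. -/
theorem cell_psi (S X M : ℕ) (n0 D A : ℤ) (k J : ℕ) (t0 : ℤ)
    (t : Fin k → ℤ) (c0 : ℝ) (c : Fin k → ℝ) (hc0 : 0 ≤ c0) (hc : ∀ l, 0 ≤ c l)
    (h0 : Cost S X D t0 c0) (ht : ∀ l, Cost S X D (t l) (c l)) (g : ℤ → ℝ)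
    (hg : ∀ x, |g x| ≤ 1) (η : Fin k → Bool) (j : ℕ × (Fin k × Bool → ℕ)) (hj : j ∈ box k J) :
    |cellSum S X M n0 D A g - cellSum S X M n0 D A (fun n => g (n + psi t0 t η j))| ≤
      J * (c0 + ∑ l, c l) * ((S : ℝ) * X * M) := by
  have h1 := gshift_psi (cellOm S X M) (cellPt n0 D A) k J t0 t c0 c hc0 hc
    (shift_of_cost S X M n0 D A t0 c0 h0) (fun l => shift_of_cost S X M n0 D A _ _ (ht l))
    g hg η j hj
  rw [← cellSum_eq S X M n0 D A g, ← cellSum_eq S X M n0 D A (fun n => g (n + psi t0 t η j)),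
    cellOm_card] at h1
  refine h1.trans (le_of_eq ?_)
  push_cast
  ring

open Classical in
/-- Number of the points of the cell with `P`. -/
noncomputable def cellCnt (S X M : ℕ) (n0 D A : ℤ) (P : ℤ → Prop) : ℕ :=
  ((cellOm S X M).filter (fun w => P (cellPt n0 D A w))).card

open Classical in
theorem cellCnt_eq (S X M : ℕ) (n0 D A : ℤ) (P : ℤ → Prop) :
    (cellCnt S X M n0 D A P : ℝ) = cellSum S X M n0 D A (fun n => if P n then 1 else 0) := by
  rw [cellSum_eq]
  unfold cellCnt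
  rw [Finset.card_filter]
  push_cast
  rfl

/-- Shift invariance of densities in the concrete cell. -/
theorem cellCnt_psi (S X M : ℕ) (n0 D A : ℤ) (k J : ℕ) (t0 : ℤ)
    (t : Fin k → ℤ) (c0 : ℝ) (c : Fin k → ℝ) (hc0 : 0 ≤ c0) (hc : ∀ l, 0 ≤ c l)
    (h0 : Cost S X D t0 c0) (ht : ∀ l, Cost S X D (t l) (c l)) (P : ℤ → Prop)
    (η : Fin k → Bool) (j : ℕ × (Fin k × Bool → ℕ)) (hj : j ∈ box k J) :
    |(cellCnt S X M n0 D A P : ℝ) - cellCnt S X M n0 D A (fun n => P (n + psi t0 t η j))| ≤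
      J * (c0 + ∑ l, c l) * ((S : ℝ) * X * M) := by
  classical
  rw [cellCnt_eq, cellCnt_eq]
  exact cell_psi S X M n0 D A k J t0 t c0 c hc0 hc h0 ht (fun n => if P n then 1 else 0)
    (fun x => by by_cases h : P x <;> simp [h]) η j hj

/-- Shift invariance of densities in the concrete cell, one shift. -/
theorem cellCnt_shift (S X M : ℕ) (n0 D A t : ℤ) (c : ℝ) (h : Cost S X D t c) (P : ℤ → Prop)
    (a : ℕ) :
    |(cellCnt S X M n0 D A P : ℝ) - cellCnt S X M n0 D A (fun n => P (n + a * t))| ≤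
      a * c * ((S : ℝ) * X * M) := by
  classical
  rw [cellCnt_eq, cellCnt_eq]
  exact cell_shift S X M n0 D A t c h (fun n => if P n then 1 else 0)
    (fun x => by by_cases h : P x <;> simp [h]) a

end Pool.Agent.H59.T4
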